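import Pool.Agent.Helper885.Emb.NoNE
import Pool.Agent.Helper108.Emb.Assembly

set_option autoImplicit false

namespace Pool.Agent.Helper885.Emb

open Quaternion Topology Set Metric Filter
open scoped ContDiff
open Pool.Agent.Helper253 Pool.Agent.Helper253.Net Pool.Agent.Helper253.Emb

/-- The four sheets theorem in the form used by the assembly. -/
theorem four_sheets (W : Web) (lo hi : ℝ) (D : Pool.Agent.Helper108.Emb.Dir W lo hi) (u : ℕ → ℝ)
    (hF : Pool.Agent.Helper108.Emb.Fam W lo hi u) : False := by
  have D' : Dir W lo hi :=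
    { h1 := D.h2, h2 := D.h3, h3 := fun v => by linarith [D.h4 v], h4 := D.h1, h5 := D.lt,
      h6 := D.lt' }
  refine no_NE D' hF.1 fun k hk => ?_
  obtain ⟨r, hr, h⟩ := hF.2 k hk
  refine ⟨r, hr, ?_⟩
  filter_upwards [h] with n hn
  obtain ⟨h1, h2⟩ := hn
  simp only [Pool.Agent.Helper108.Emb.cG] at h1 h2
  refine ⟨h1.trans (le_of_eq ?_), h2.trans (le_of_eq ?_)⟩
  · simp only [cr, Complex.sub_re, Complex.sub_im]
    ring
  · simp only [cr, Complex.sub_re, Complex.sub_im]
    ring

/-- There is no asymptotic web of an embedded flat plane. -/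
theorem no_web (W : Web) : False :=
  Pool.Agent.Helper108.Emb.no_web_of four_sheets W

end Pool.Agent.Helper885.Emb
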