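import Pool.Agent.Helper885.Emb.Hgt
import Pool.Agent.Helper253.Emb.Sym
import Pool.Agent.Helper253.Emb.NArg

set_option autoImplicit false
set_option linter.unusedSectionVars false

namespace Pool.Agent.Helper885.Emb

open Quaternion Topology Set Metric Filter
open scoped ContDiff
open Pool.Agent.Helper253 Pool.Agent.Helper253.Net Pool.Agent.Helper253.Emb

variable {W : Web} {c d : ℝ}

theorem NE.mono {k T T' u : ℝ} (h : NE W c d k T u) (hT : T' ≤ T) : NE W c d k T' u :=
  ⟨hT.trans h.1, hT.trans h.2⟩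

/-- The constants of the four sheets argument. -/
structure Four (W : Web) (c d k T k' T' u v η δ κ ε ε0 : ℝ) : Prop where
  D : Dir W c d
  hk : 0 < k
  hT : 0 < T
  hTk : T ≤ k
  hks : k ≤ Real.sin (d - c) ^ 2 / 256
  nu : NE W c d k T u
  nv : NE W c d k T v
  hk' : 0 < k'
  hkk : k' ≤ k
  hT' : 0 < T'
  hTT : T' ≤ T
  hκ : (2 * T' + k') / Real.sin (d - c) ≤ κ
  nu' : NE W c d k' T' u
  nv' : NE W c d k' T' v
  huv : 2 * k < |u - v|
  hη : ‖W.b u - W.b v‖ ≤ η
  hηT : η ≤ T' / 128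
  hηε : η ≤ ε / 8
  hb1 : ∀ y, |y| ≤ k → ‖W.b (u + y) - W.b (v + y)‖ ≤ η
  hb2 : ∀ y, |y| ≤ k → ‖W.G (u + y) - W.G u - (W.G (v + y) - W.G v)‖ ≤ η
  hδ0 : 0 < δ
  hδT : δ ≤ T' / 128
  hδσ : δ ≤ Real.sin (d - c) ^ 2 / 64
  hδε0 : δ ≤ ε0 / 4
  hκT : κ ≤ T / 1024
  hκε0 : κ ≤ ε0 / 8
  hκσ : κ ≤ Real.sin (d - c) / 128
  hε : 0 < ε
  hεT : ε ≤ T' / 256
  hεδ : 2 * ε + 512 * ε / (T' * Real.sin (d - c)) ≤ δ
  hε0 : 0 < ε0
  ha : ∀ t, ‖W.a t - W.a 0‖ < ε0 → |t| < Real.sin (d - c) / 8

namespace Four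

variable {k T k' T' u v η δ κ ε ε0 : ℝ} (X : Four W c d k T k' T' u v η δ κ ε ε0)

/-- The first difference of heights. -/
noncomputable def D1 (W : Web) (c d u v s t τ : ℝ) : ℝ :=
  hgt W c d s u t v τ - hgt W c d s u s u τ

/-- The second difference of heights. -/
noncomputable def D2 (W : Web) (c d u v s t τ : ℝ) : ℝ :=
  hgt W c d s u s v τ - hgt W c d s u t u τ

include X

theorem ok {s t : ℝ} {τ : ℝ} (hτ : 0 < τ) (hτT : τ ≤ T / 4) (h : ‖W.a t - W.a s‖ + η ≤ τ / 8) :
    Ok W c d k T s u t v τ ∧ Ok W c d k T s u s u τ ∧ Ok W c d k T s u s v τ ∧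
      Ok W c d k T s u t u τ := by
  have h1 := X.hη
  rw [norm_sub_rev] at h1
  have h2 := norm_nonneg (W.a t - W.a s)
  have h3 := norm_nonneg (W.b v - W.b u)
  refine ⟨⟨X.D, X.hk, X.hT, X.hTk, X.hks, X.nv, hτ, hτT, by linarith⟩,
    ⟨X.D, X.hk, X.hT, X.hTk, X.hks, X.nu, hτ, hτT, by simp only [sub_self, norm_zero]; linarith⟩,
    ⟨X.D, X.hk, X.hT, X.hTk, X.hks, X.nv, hτ, hτT, by
      rw [sub_self, norm_zero]; linarith⟩,
    ⟨X.D, X.hk, X.hT, X.hTk, X.hks, X.nu, hτ, hτT, by
      rw [sub_self (W.b u), norm_zero]; linarith⟩⟩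

theorem path {s t τ : ℝ → ℝ} (hs : Continuous s) (ht : Continuous t) (hτ : Continuous τ)
    (h0 : ∀ x ∈ Icc (0 : ℝ) 1, 0 < τ x) (h1 : ∀ x ∈ Icc (0 : ℝ) 1, τ x ≤ T / 4)
    (h2 : ∀ x ∈ Icc (0 : ℝ) 1, ‖W.a (t x) - W.a (s x)‖ + η ≤ τ x / 8) :
    0 < D1 W c d u v (s 0) (t 0) (τ 0) * D1 W c d u v (s 1) (t 1) (τ 1) ∧
    0 < D2 W c d u v (s 0) (t 0) (τ 0) * D2 W c d u v (s 1) (t 1) (τ 1) := by
  have hok := fun x hx => X.ok (s := s x) (t := t x) (h0 x hx) (h1 x hx) (h2 x hx)
  have hvu : 2 * k < |v - u| := by rw [abs_sub_comm]; exact X.huv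
  constructor
  · refine sign_const (h := fun x => D1 W c d u v (s x) (t x) (τ x)) zero_le_one ?_ ?_
    · exact (hgt_cont hs ht hτ fun x hx => (hok x hx).1).sub
        (hgt_cont hs hs hτ fun x hx => (hok x hx).2.1)
    · intro x hx h
      exact hgt_ne (hok x hx).1 (hok x hx).2.1 hvu (sub_eq_zero.1 h)
  · refine sign_const (h := fun x => D2 W c d u v (s x) (t x) (τ x)) zero_le_one ?_ ?_
    · exact (hgt_cont hs hs hτ fun x hx => (hok x hx).2.2.1).sub
        (hgt_cont hs ht hτ fun x hx => (hok x hx).2.2.2)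
    · intro x hx h
      exact hgt_ne (hok x hx).2.2.1 (hok x hx).2.2.2 hvu (sub_eq_zero.1 h)

/-- Change of level. -/
theorem level {s t τ1 τ2 : ℝ} (h1 : T' / 4 ≤ τ1) (h2 : T' / 4 ≤ τ2) (h3 : τ1 ≤ T / 4)
    (h4 : τ2 ≤ T / 4) (h : ‖W.a t - W.a s‖ ≤ δ) :
    0 < D1 W c d u v s t τ1 * D1 W c d u v s t τ2 ∧
    0 < D2 W c d u v s t τ1 * D2 W c d u v s t τ2 := by
  have hT' := X.hT'
  have hb : ∀ x ∈ Icc (0 : ℝ) 1, T' / 4 ≤ τ1 + x * (τ2 - τ1) ∧ τ1 + x * (τ2 - τ1) ≤ T / 4 := by
    intro x hx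
    constructor
    · nlinarith [hx.1, hx.2]
    · nlinarith [hx.1, hx.2]
  have := X.path (s := fun _ => s) (t := fun _ => t) (τ := fun x => τ1 + x * (τ2 - τ1))
    continuous_const continuous_const (by fun_prop)
    (fun x hx => by have := (hb x hx).1; linarith) (fun x hx => (hb x hx).2)
    (fun x hx => by
      have h5 := (hb x hx).1
      have h6 := X.hδT
      have h7 := X.hηT
      linarith)
  simpa using this

/-- The state of the induction. -/
def St (W : Web) (c d u v δ T' s t : ℝ) : Prop :=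
  ‖W.a t - W.a s‖ ≤ δ ∧ Real.sin (d - c) / 4 ≤ |s - t| ∧
    0 < D1 W c d u v s t (T' / 4) * D2 W c d u v s t (T' / 4)

theorem step {s t : ℝ} (h : St W c d u v δ T' s t) :
    ∃ s1 t1, St W c d u v δ T' s1 t1 ∧ s + T' / 16 ≤ s1 ∧ s1 ≤ s + κ := by
  obtain ⟨htight, hfar, hsgn⟩ := h
  have hT' := X.hT'
  have hTT := X.hTT
  have hσ := X.D.sg_pos
  have hσ1 := X.D.sg_le
  have hδT := X.hδT
  have hηT := X.hηT
  have hκT := X.hκT
  obtain ⟨o1, o2, o3, o4⟩ := X.ok (s := s) (t := t) (τ := T' / 4) (by positivity) (by linarith)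
    (by linarith)
  have hκ0 : 0 ≤ κ := le_trans (by have := X.hk'; positivity) X.hκ
  by_cases hgap : |hgt W c d s u s u (T' / 4) - hgt W c d s u t u (T' / 4)| ≤ ε
  · -- a new tight pair
    have hεT := X.hεT
    obtain ⟨s1, u1, s2, u2, a1, a2, a3, b1, b2, b3, hd, hor⟩ := hgt_gap o2 o4 X.hk' hT' rfl hTT
      X.nu' X.nu' X.hε (by linarith) hgap
    have hκ := X.hκ
    have hu12 : ‖W.b u1 - W.b u2‖ ≤ 512 * ε / (T' * Real.sin (d - c)) := by
      rcases hor with ⟨-, h2⟩ | ⟨h2, -⟩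
      · rw [h2, sub_self, norm_zero]
        have := X.hε
        positivity
      · have h3 : |u1 - u2| ≤ Real.sin (d - c) / 8 := by
          have hk1 := o1.small.1
          have hkk := X.hkk
          rw [abs_le] at a3 b3 ⊢
          constructor <;> linarith [a3.1, a3.2, b3.1, b3.2]
        have h4 := (short_b X.D h3).trans h2
        have h5 : |u1 - u2| ≤ 512 * ε / (T' * Real.sin (d - c)) := by
          rw [le_div_iff₀ (by positivity)]
          have h6 : 64 * ε / (T' / 4) = 256 * ε / T' := by field_simp; ring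
          rw [h6, le_div_iff₀ hT'] at h4
          nlinarith
        exact (W.lip_b u1 u2).trans h5
    have htight' : ‖W.a s2 - W.a s1‖ ≤ δ := by
      have e1 : ‖W.a s2 - W.a s1‖ = ‖(W.a s2 - W.a s1) * W.b u1‖ := by
        rw [norm_mul, W.ub, mul_one]
      have e2 : (W.a s2 - W.a s1) * W.b u1 = W.a s2 * (W.b u1 - W.b u2) -
          (W.a s1 * W.b u1 - W.a s2 * W.b u2) := by noncomm_ring
      rw [e1, e2]
      refine (norm_sub_le _ _).trans ?_
      rw [norm_mul, W.ua, one_mul]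
      have := X.hεδ
      linarith
    have hdiff : |(s1 - s2) - (s - t)| ≤ κ := by
      rw [abs_le]; constructor <;> linarith
    have hfar' : Real.sin (d - c) / 4 ≤ |s1 - s2| := by
      by_contra hlt
      push Not at hlt
      have h1 := chord_a X.D hlt.le
      rw [norm_sub_rev] at h1
      have h2 := h1.trans htight'
      have h3 := X.hδσ
      have h4 : |s1 - s2| ≤ Real.sin (d - c) / 16 := by
        have : Real.sin (d - c) * |s1 - s2| ≤ Real.sin (d - c) * (Real.sin (d - c) / 16) := by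
          nlinarith
        exact le_of_mul_le_mul_left this hσ
      have h5 : |s - t| ≤ |s1 - s2| + |(s1 - s2) - (s - t)| := by
        have := abs_sub (s1 - s2) ((s1 - s2) - (s - t))
        have e : (s1 - s2) - ((s1 - s2) - (s - t)) = s - t := by ring
        rw [e] at this
        exact this
      have := X.hκσ
      linarith
    refine ⟨s1, s2, ⟨htight', hfar', ?_⟩, by linarith, by linarith⟩
    have l1 := X.level (s := s) (t := t) (τ1 := T' / 4) (τ2 := T / 4) le_rfl (by linarith)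
      (by linarith) le_rfl htight
    have l3 := X.level (s := s1) (t := s2) (τ1 := T / 4) (τ2 := T' / 4) (by linarith) le_rfl
      le_rfl (by linarith) htight'
    have l2 := X.path (s := fun x => s + x * (s1 - s)) (t := fun x => t + x * (s2 - t))
      (τ := fun _ => T / 4) (by fun_prop) (by fun_prop) continuous_const
      (fun x hx => by have := X.hT; linarith) (fun x hx => le_rfl)
      (fun x hx => by
        have m1 : |x * (s2 - t)| ≤ κ := by
          rw [abs_le]
          constructor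
          · nlinarith [hx.1, hx.2]
          · nlinarith [hx.1, hx.2]
        have m2 : |x * (s1 - s)| ≤ κ := by
          rw [abs_le]
          constructor
          · nlinarith [hx.1, hx.2]
          · nlinarith [hx.1, hx.2]
        have m3 := W.lip_a (t + x * (s2 - t)) t
        have m4 := W.lip_a (s + x * (s1 - s)) s
        rw [add_sub_cancel_left] at m3 m4
        have m5 : ‖W.a (t + x * (s2 - t)) - W.a (s + x * (s1 - s))‖ ≤
            ‖W.a (t + x * (s2 - t)) - W.a t‖ + ‖W.a t - W.a s‖ +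
              ‖W.a (s + x * (s1 - s)) - W.a s‖ := by
          have e : W.a (t + x * (s2 - t)) - W.a (s + x * (s1 - s)) =
            (W.a (t + x * (s2 - t)) - W.a t) + (W.a t - W.a s) +
              -(W.a (s + x * (s1 - s)) - W.a s) := by abel
          rw [e]
          refine (norm_add₃_le).trans ?_
          rw [norm_neg]
        linarith)
    simp only [zero_mul, add_zero, one_mul, add_sub_cancel] at l2
    obtain ⟨p1, q1⟩ := l1
    obtain ⟨p2, q2⟩ := l2
    obtain ⟨p3, q3⟩ := l3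
    -- combine the signs
    have hmul := mul_pos (mul_pos (mul_pos p1 p2) p3) (mul_pos (mul_pos q1 q2) q3)
    set A0 := D1 W c d u v s t (T' / 4)
    set A1 := D1 W c d u v s t (T / 4)
    set A2 := D1 W c d u v s1 s2 (T / 4)
    set A3 := D1 W c d u v s1 s2 (T' / 4)
    set B0 := D2 W c d u v s t (T' / 4)
    set B1 := D2 W c d u v s t (T / 4)
    set B2 := D2 W c d u v s1 s2 (T / 4)
    set B3 := D2 W c d u v s1 s2 (T' / 4)
    have e : A0 * A1 * (A1 * A2) * (A2 * A3) * (B0 * B1 * (B1 * B2) * (B2 * B3)) =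
      (A0 * B0) * (A1 * A2 * (B1 * B2)) ^ 2 * (A3 * B3) := by ring
    rw [e] at hmul
    have hpos : 0 < (A0 * B0) * (A1 * A2 * (B1 * B2)) ^ 2 := by
      have : A1 * A2 * (B1 * B2) ≠ 0 := mul_ne_zero p2.ne' q2.ne'
      positivity
    exact (pos_iff_pos_of_mul_pos hmul).1 hpos
  · -- large gap: the signs are opposite
    exfalso
    push Not at hgap
    have hvu1 : ∀ y, |y| ≤ k → ‖W.b (u + y) - W.b (v + y)‖ ≤ η := X.hb1
    have c1 := hgt_close_b o4 o1 (by linarith) X.hb1 X.hb2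
    have c2 := hgt_close_b o2 o3 (by linarith) X.hb1 X.hb2
    have hηε := X.hηε
    have hε := X.hε
    rw [D1, D2] at hsgn
    set huu := hgt W c d s u s u (T' / 4)
    set htu := hgt W c d s u t u (T' / 4)
    set hsv := hgt W c d s u s v (T' / 4)
    set htv := hgt W c d s u t v (T' / 4)
    rw [abs_le] at c1 c2
    have : (htv - huu) * (hsv - htu) < 0 := by
      rcases lt_abs.1 hgap with h | h
      · exact mul_neg_of_neg_of_pos (by linarith [c1.2]) (by linarith [c2.1])
      · exact mul_neg_of_pos_of_neg (by linarith [c1.1]) (by linarith [c2.2])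
    linarith

/-- No state to the left of the origin. -/
theorem no_state {s t : ℝ} (hs : s ≤ 0) (h : St W c d u v δ T' s t) : False := by
  have hT' := X.hT'
  have hind : ∀ n : ℕ, ∃ s' t', St W c d u v δ T' s' t' ∧ s' ≤ 0 ∧ s + n * (T' / 16) ≤ s' := by
    intro n
    induction n with
    | zero => exact ⟨s, t, h, hs, by simp⟩
    | succ n ih =>
      obtain ⟨s', t', h1, h2, h3⟩ := ih
      obtain ⟨s1, t1, h4, h5, h6⟩ := X.step h1
      rcases le_or_gt s1 0 with h7 | h7
      · exact ⟨s1, t1, h4, h7, by push_cast; linarith⟩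
      · exfalso
        obtain ⟨g1, g2, -⟩ := h4
        have h8 := W.lip_a s1 0
        rw [sub_zero, abs_of_pos h7] at h8
        have h9 : ‖W.a t1 - W.a 0‖ ≤ ‖W.a t1 - W.a s1‖ + ‖W.a s1 - W.a 0‖ := by
          have := norm_add_le (W.a t1 - W.a s1) (W.a s1 - W.a 0)
          rwa [sub_add_sub_cancel] at this
        have h10 := X.hδε0
        have h11 := X.hκε0
        have h12 := X.hε0
        have h13 := X.ha t1 (by linarith)
        have h14 := X.hκσ
        have h15 := X.D.sg_pos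
        have h16 : |s1 - t1| ≤ |s1| + |t1| := abs_sub s1 t1
        rw [abs_of_pos h7] at h16
        linarith
  obtain ⟨n, hn⟩ := exists_nat_gt ((-s + 1) / (T' / 16))
  obtain ⟨s', t', -, h2, h3⟩ := hind n
  rw [div_lt_iff₀ (by positivity)] at hn
  linarith

end Four

end Pool.Agent.Helper885.Emb
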