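import Pool.Agent.Helper885.Emb.Sheets

set_option autoImplicit false
set_option linter.unusedSectionVars false

namespace Pool.Agent.Helper885.Emb

open Quaternion Topology Set Metric Filter
open scoped ContDiff
open Pool.Agent.Helper253 Pool.Agent.Helper253.Net Pool.Agent.Helper253.Emb

/-- The solution over the diagonal point at level `τ`. -/
noncomputable def sol (W : Web) (c d s u t p τ : ℝ) : ℂ :=
  open Classical in
  if h : ∃ ζ ∈ closedBall (τ • e0 c d) (τ / 2), zL (E W s u t p ζ) = τ • e0 c d then h.choose else 0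

/-- The height of the sheet through `(t, p)` over the diagonal point at level `τ`, in the frame
`(s, u)`. -/
noncomputable def hgt (W : Web) (c d s u t p τ : ℝ) : ℝ := kL (E W s u t p (sol W c d s u t p τ))

variable {W : Web} {c d : ℝ}

/-- The standing assumptions on a sheet. -/
structure Ok (W : Web) (c d k T s u t p τ : ℝ) : Prop where
  D : Dir W c d
  hk : 0 < k
  hT : 0 < T
  hTk : T ≤ k
  hks : k ≤ Real.sin (d - c) ^ 2 / 256
  hN : NE W c d k T p
  hτ : 0 < τ
  hτT : τ ≤ T / 4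
  hcl : ‖W.a t - W.a s‖ + ‖W.b p - W.b u‖ ≤ τ / 8

namespace Ok

variable {k T s u t p τ : ℝ} (O : Ok W c d k T s u t p τ)

include O

theorem small : k ≤ Real.sin (d - c) / 256 ∧ k ≤ 1 / 256 ∧
    (2 * T + k) / Real.sin (d - c) ≤ 3 * Real.sin (d - c) / 256 := by
  have h0 := O.D.sg_pos
  have h1 := O.D.sg_le
  have h2 := O.hks
  have h3 := O.hTk
  refine ⟨by nlinarith, by nlinarith, ?_⟩
  rw [div_le_iff₀ h0]
  nlinarith

theorem lin : Lin (E W s u t p) (Reg c d T) (Real.sin (d - c) / 16) := by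
  have h0 := O.D.sg_pos
  have h1 := O.D.sg_le
  obtain ⟨h2, h3, h4⟩ := O.small
  have h5 := O.hcl
  have h6 := O.hτT
  have h7 := O.hTk
  exact E_lin O.D O.hk O.hT O.hN s u t (by linarith)

theorem lin8 : Lin (E W s u t p) (Reg c d T) (1 / 8) :=
  O.lin.mono (Subset.refl _) (by linarith [O.D.sg_le])

theorem ball_sub : closedBall (τ • e0 c d) (τ / 2) ⊆ Reg c d T := by
  intro ζ hζ
  rw [mem_closedBall, dist_eq_norm] at hζ
  have := O.hτ
  have := O.hτT
  exact near_Reg O.D hζ (by linarith) (by linarith)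

theorem sol_spec : sol W c d s u t p τ ∈ closedBall (τ • e0 c d) (τ / 2) ∧
    zL (E W s u t p (sol W c d s u t p τ)) = τ • e0 c d := by
  have h0 := O.D.sg_pos
  have hτ := O.hτ
  have hex : ∃ ζ ∈ closedBall (τ • e0 c d) (τ / 2), zL (E W s u t p ζ) = τ • e0 c d := by
    refine exists_sol (by positivity) (O.lin8.mono O.ball_sub le_rfl) ?_
    have hm : τ • e0 c d ∈ Reg c d T := O.ball_sub (mem_closedBall_self (by positivity))
    have h1 := E_base O.D O.hT O.lin hm
    have h2 := E_zero (W := W) s u t p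
    have h3 : ‖τ • e0 c d‖ ≤ τ * (2 / Real.sin (d - c)) := by
      rw [norm_smul, Real.norm_eq_abs, abs_of_pos hτ]
      exact mul_le_mul_of_nonneg_left (norm_e0 O.D) hτ.le
    have h4 : Real.sin (d - c) / 16 * ‖τ • e0 c d‖ ≤ τ / 8 := by
      calc Real.sin (d - c) / 16 * ‖τ • e0 c d‖ ≤
          Real.sin (d - c) / 16 * (τ * (2 / Real.sin (d - c))) :=
            mul_le_mul_of_nonneg_left h3 (by positivity)
        _ = τ / 8 := by field_simp; norm_num
    have e1 : zL (E W s u t p (τ • e0 c d)) - τ • e0 c d =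
        zL ((E W s u t p (τ • e0 c d) - E W s u t p 0 - hat (τ • e0 c d)) +
          (E W s u t p 0 - 1)) := by
      rw [map_add, map_sub, map_sub, map_sub]
      have z1 : zL (1 : ℍ[ℝ]) = 0 := by
        apply Complex.ext <;> simp [zL_re, zL_im]
      have z2 : zL (hat (τ • e0 c d)) = τ • e0 c d := rfl
      rw [z1, z2]; ring
    rw [e1]
    refine (norm_zL_le _).trans ((norm_add_le _ _).trans ?_)
    have := O.hcl
    linarith
  unfold sol
  rw [dif_pos hex]
  exact hex.choose_spec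

theorem sol_mem : sol W c d s u t p τ ∈ Reg c d T := O.ball_sub O.sol_spec.1

theorem near_one {ζ : ℂ} (hζ : ζ ∈ Reg c d T) : ‖E W s u t p ζ - 1‖ ≤ 1 / 4 := by
  have h0 := O.D.sg_pos
  have h00 := O.D.sg_le
  have h1 := E_base O.D O.hT O.lin hζ
  have h2 := E_zero (W := W) s u t p
  have h3 := norm_le_of_coord O.D ζ
  obtain ⟨z1, z2, z3, z4⟩ := hζ
  rw [abs_of_pos z1, abs_of_pos z3] at h3
  obtain ⟨h5, h6, h7⟩ := O.small
  have h8 : ‖ζ‖ ≤ 1 / 64 := by
    refine h3.trans ?_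
    rw [div_le_iff₀ h0]
    have := O.hTk
    linarith
  have h9 : ‖E W s u t p ζ - 1‖ ≤ ‖E W s u t p ζ - E W s u t p 0 - hat ζ‖ + ‖hat ζ‖ +
      ‖E W s u t p 0 - 1‖ := by
    have e : E W s u t p ζ - 1 = (E W s u t p ζ - E W s u t p 0 - hat ζ) + hat ζ +
      (E W s u t p 0 - 1) := by abel
    rw [e]
    exact norm_add₃_le
  rw [norm_hat] at h9
  have h10 := O.hcl
  have h11 := O.hτT
  have h12 := O.hTk
  have h13 : Real.sin (d - c) / 16 * ‖ζ‖ ≤ 1 / 16 * (1 / 64) := by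
    refine mul_le_mul (by linarith) h8 (norm_nonneg _) (by norm_num)
  linarith

theorem params {ζ : ℂ} (hζ : ζ ∈ Reg c d T) : ∃ t' p', W.F t' + W.G p' = W.F t + W.G p + ζ ∧
    t ≤ t' ∧ t' - t ≤ (2 * T + k) / Real.sin (d - c) ∧ |p' - p| ≤ k ∧
      min (cr ζ (ei d)) (cr (ei c) ζ) ≤ t' - t := by
  obtain ⟨t', p', h⟩ := chart O.D O.hk O.hT O.hN t hζ
  obtain ⟨l1, l2, l3, l4⟩ := loc O.D O.hN hζ h
  exact ⟨t', p', h, l1, l2, l3, l4⟩

end Ok

/-- Unit quaternions near one are determined by three coordinates. -/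
theorem unit_ext {x y : ℍ[ℝ]} {ε : ℝ} (hx : ‖x‖ = 1) (hy : ‖y‖ = 1) (hx1 : ‖x - 1‖ ≤ 1 / 4)
    (hy1 : ‖y - 1‖ ≤ 1 / 4) (hz : zL x = zL y) (hk : |kL x - kL y| ≤ ε) : ‖x - y‖ ≤ 2 * ε := by
  have n1 := norm_sq_eq x
  have n2 := norm_sq_eq y
  rw [hx] at n1
  rw [hy] at n2
  have z1 : x.imI = y.imI := by have := congrArg Complex.re hz; simpa [zL_re] using this
  have z2 : x.imJ = y.imJ := by have := congrArg Complex.im hz; simpa [zL_im] using this
  have r1 : |x.re - 1| ≤ 1 / 4 := by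
    have := (abs_reL_le (x - 1)).trans hx1
    have e : reL (x - 1) = x.re - 1 := by rw [reL_apply]; simp
    rwa [e] at this
  have r2 : |y.re - 1| ≤ 1 / 4 := by
    have := (abs_reL_le (y - 1)).trans hy1
    have e : reL (y - 1) = y.re - 1 := by rw [reL_apply]; simp
    rwa [e] at this
  have k1 : |x.imK| ≤ 1 / 4 := by
    have := (abs_kL_le (x - 1)).trans hx1
    have e : kL (x - 1) = x.imK := by rw [kL_apply]; simp
    rwa [e] at this
  have k2 : |y.imK| ≤ 1 / 4 := by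
    have := (abs_kL_le (y - 1)).trans hy1
    have e : kL (y - 1) = y.imK := by rw [kL_apply]; simp
    rwa [e] at this
  have hε : 0 ≤ ε := (abs_nonneg _).trans hk
  have hk' : |x.imK - y.imK| ≤ ε := hk
  have n3 := norm_sq_eq (x - y)
  have m1 : (x - y).re = x.re - y.re := by simp
  have m2 : (x - y).imI = 0 := by simp [z1]
  have m3 : (x - y).imJ = 0 := by simp [z2]
  have m4 : (x - y).imK = x.imK - y.imK := by simp
  rw [m1, m2, m3, m4] at n3
  rw [abs_le] at r1 r2 k1 k2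
  -- (x.re - y.re)(x.re + y.re) = -(x.imK - y.imK)(x.imK + y.imK)
  have e1 : (x.re - y.re) * (x.re + y.re) = -((x.imK - y.imK) * (x.imK + y.imK)) := by
    rw [z1, z2] at n1
    nlinarith
  have hre : |x.re - y.re| ≤ ε := by
    have h1 : |x.re - y.re| * (x.re + y.re) ≤ ε * (1 / 2) := by
      have h2 : |(x.re - y.re) * (x.re + y.re)| = |x.re - y.re| * (x.re + y.re) := by
        rw [abs_mul, abs_of_pos (by linarith : 0 < x.re + y.re)]
      rw [← h2, e1, abs_neg, abs_mul]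
      exact mul_le_mul hk' (by rw [abs_le]; constructor <;> linarith) (abs_nonneg _) hε
    have h3 : |x.re - y.re| * (3 / 2) ≤ |x.re - y.re| * (x.re + y.re) :=
      mul_le_mul_of_nonneg_left (by linarith) (abs_nonneg _)
    linarith
  have s1 : (x.re - y.re) ^ 2 ≤ ε ^ 2 := sq_le_sq' (by linarith [(abs_le.1 hre).1]) (abs_le.1 hre).2
  have s2 : (x.imK - y.imK) ^ 2 ≤ ε ^ 2 :=
    sq_le_sq' (by linarith [(abs_le.1 hk').1]) (abs_le.1 hk').2
  refine (sq_le_sq₀ (norm_nonneg _) (by positivity)).1 ?_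
  rw [n3]
  nlinarith

/-- Distinct sheets have distinct heights. -/
theorem hgt_ne {k T s u t1 p1 t2 p2 τ : ℝ} (O1 : Ok W c d k T s u t1 p1 τ)
    (O2 : Ok W c d k T s u t2 p2 τ) (hp : 2 * k < |p1 - p2|) :
    hgt W c d s u t1 p1 τ ≠ hgt W c d s u t2 p2 τ := by
  intro h
  have m1 := O1.sol_mem
  have m2 := O2.sol_mem
  obtain ⟨t1', p1', e1, -, -, a1, -⟩ := O1.params m1
  obtain ⟨t2', p2', e2, -, -, a2, -⟩ := O2.params m2
  have hu := unit_ext (ε := 0) (norm_E (s := s) (u := u) e1) (norm_E (s := s) (u := u) e2)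
    (O1.near_one m1) (O2.near_one m2) (by rw [O1.sol_spec.2, O2.sol_spec.2]) (by
      have : kL (E W s u t1 p1 (sol W c d s u t1 p1 τ)) -
        kL (E W s u t2 p2 (sol W c d s u t2 p2 τ)) = 0 := sub_eq_zero.2 h
      rw [this, abs_zero])
  rw [mul_zero] at hu
  have h3 := sub_eq_zero.1 (norm_eq_zero.1 (le_antisymm hu (norm_nonneg _)))
  rw [E_val e1, E_val e2] at h3
  have h4 : W.a t1' * W.b p1' = W.a t2' * W.b p2' := by
    have h5 : W.a s * (star (W.a s) * W.a t1' * (W.b p1' * star (W.b u))) * W.b u =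
        W.a s * (star (W.a s) * W.a t2' * (W.b p2' * star (W.b u))) * W.b u := by rw [h3]
    have e3 : ∀ x y : ℝ, W.a s * (star (W.a s) * W.a x * (W.b y * star (W.b u))) * W.b u =
        W.a x * W.b y := by
      intro x y
      have : W.a s * (star (W.a s) * W.a x * (W.b y * star (W.b u))) * W.b u =
        (W.a s * star (W.a s)) * W.a x * W.b y * (star (W.b u) * W.b u) := by
        simp only [mul_assoc]
      rw [this, self_mul_star1 (W.ua s), star_mul_self1 (W.ub u), one_mul, mul_one]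
    rwa [e3, e3] at h5
  obtain ⟨-, h6⟩ := W.abi _ _ _ _ h4
  rw [← h6] at a2
  rw [abs_le] at a1 a2
  have : |p1 - p2| ≤ 2 * k := by rw [abs_le]; constructor <;> linarith
  linarith

theorem E_path (u p : ℝ) (ζ : ℂ) {s t : ℝ → ℝ} (hs : Continuous s) (ht : Continuous t) :
    Continuous (fun y => E W (s y) u (t y) p ζ) := by
  have h1 := W.cont_a
  have h3 := W.cont_F
  have h5 : Continuous W.f := W.sf.continuous
  have h6 : Continuous fun y => star (W.a (s y)) * W.f (W.F (t y) + W.G p + ζ) * star (W.b u) := by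
    have h7 : Continuous fun y => W.a (s y) := h1.comp hs
    have h8 : Continuous fun y => W.f (W.F (t y) + W.G p + ζ) :=
      h5.comp (((h3.comp ht).add continuous_const).add continuous_const)
    exact (h7.star.mul h8).mul continuous_const
  exact h6

/-- Continuity of heights along a path. -/
theorem hgt_cont {k T u p : ℝ} {s t τ : ℝ → ℝ} (hs : Continuous s) (ht : Continuous t)
    (hτ : Continuous τ) {A : Set ℝ} (hO : ∀ x ∈ A, Ok W c d k T (s x) u (t x) p (τ x)) :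
    ContinuousOn (fun x => hgt W c d (s x) u (t x) p (τ x)) A := by
  intro x hx
  have Ox := hO x hx
  obtain ⟨ζ, hζ⟩ : ∃ ζ, ζ = sol W c d (s x) u (t x) p (τ x) := ⟨_, rfl⟩
  have hm : ζ ∈ Reg c d T := by rw [hζ]; exact Ox.sol_mem
  have hz : zL (E W (s x) u (t x) p ζ) = τ x • e0 c d := by rw [hζ]; exact Ox.sol_spec.2
  have hh : hgt W c d (s x) u (t x) p (τ x) = kL (E W (s x) u (t x) p ζ) := by rw [hζ]; rfl
  have h1 : Continuous (fun y => E W (s y) u (t y) p ζ) := E_path u p ζ hs ht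
  have h2 : Continuous (fun y => τ y • e0 c d) := hτ.smul continuous_const
  have hc : Continuous (fun y => 2 * ‖E W (s y) u (t y) p ζ - E W (s x) u (t x) p ζ‖ +
      ‖τ y • e0 c d - τ x • e0 c d‖) :=
    (continuous_const.mul (h1.sub continuous_const).norm).add (h2.sub continuous_const).norm
  rw [ContinuousWithinAt, Metric.tendsto_nhdsWithin_nhds]
  intro ε hε
  obtain ⟨δ, hδ, hδ2⟩ := Metric.continuous_iff.1 hc x ε hε
  refine ⟨δ, hδ, fun {y} hy hyx => ?_⟩
  have Oy := hO y hy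
  have h3 := hδ2 y hyx
  rw [sub_self, norm_zero, mul_zero, zero_add, sub_self, norm_zero, Real.dist_eq, sub_zero] at h3
  rw [Real.dist_eq, hh]
  have h4 := cmp_height Oy.lin8 (ζ1' := ζ) hz le_rfl hm Oy.sol_mem Oy.sol_spec.2
  have h5 := le_abs_self (2 * ‖E W (s y) u (t y) p ζ - E W (s x) u (t x) p ζ‖ +
      ‖τ y • e0 c d - τ x • e0 c d‖)
  exact lt_of_le_of_lt (h4.trans h5) h3

/-- Two sheets whose windows in the second factor are close. -/
theorem hgt_close_b {k T s u t p q τ η : ℝ} (O1 : Ok W c d k T s u t p τ)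
    (O2 : Ok W c d k T s u t q τ) (hη : η ≤ τ / 8)
    (h1 : ∀ y, |y| ≤ k → ‖W.b (p + y) - W.b (q + y)‖ ≤ η)
    (h2 : ∀ y, |y| ≤ k → ‖W.G (p + y) - W.G p - (W.G (q + y) - W.G q)‖ ≤ η) :
    |hgt W c d s u t q τ - hgt W c d s u t p τ| ≤ 2 * η := by
  have m1 := O1.sol_mem
  obtain ⟨t', p', e1, -, -, a1, -⟩ := O1.params m1
  set ζ := sol W c d s u t p τ with hζ
  set y := p' - p with hy
  have hp' : p' = p + y := by rw [hy]; ring
  set e : ℂ := (W.G (q + y) - W.G q) - (W.G (p + y) - W.G p) with he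
  have ne : ‖e‖ ≤ η := by rw [he, norm_sub_rev]; exact h2 y a1
  have e2 : W.F t' + W.G (q + y) = W.F t + W.G q + (ζ + e) := by
    rw [hp'] at e1
    rw [he]; linear_combination e1
  have hm : ζ + e ∈ Reg c d T := by
    have h3 := O1.sol_spec.1
    rw [mem_closedBall, dist_eq_norm] at h3
    have hτ := O1.hτ
    have hτT := O1.hτT
    refine near_Reg O1.D (τ := τ) (r := τ / 2 + τ / 8) ?_ (by linarith) (by linarith)
    have e3 : ζ + e - τ • e0 c d = (ζ - τ • e0 c d) + e := by ring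
    rw [e3]
    exact (norm_add_le _ _).trans (by linarith)
  have hc : ‖E W s u t q (ζ + e) - E W s u t p ζ‖ ≤ η := by
    rw [E_val e2, E_val e1, hp', ← mul_sub, ← sub_mul, norm_mul, norm_mul, norm_mul,
      Quaternion.norm_star, Quaternion.norm_star, W.ua, W.ua, W.ub, one_mul, one_mul, mul_one,
      norm_sub_rev]
    exact h1 y a1
  have := cmp_height O2.lin8 (ζ1' := ζ + e) O1.sol_spec.2 hc hm O2.sol_mem O2.sol_spec.2
  rw [sub_self, norm_zero, add_zero] at this
  exact this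

/-- Two sheets whose windows in the first factor are close. -/
theorem hgt_close_a {k T s u t r p τ η : ℝ} (O1 : Ok W c d k T s u t p τ)
    (O2 : Ok W c d k T s u r p τ) (hη : η ≤ τ / 8)
    (h1 : ∀ y, 0 ≤ y → y ≤ 1 → ‖W.a (t + y) - W.a (r + y)‖ ≤ η)
    (h2 : ∀ y, 0 ≤ y → y ≤ 1 → ‖W.F (t + y) - W.F t - (W.F (r + y) - W.F r)‖ ≤ η) :
    |hgt W c d s u r p τ - hgt W c d s u t p τ| ≤ 2 * η := by
  have m1 := O1.sol_mem
  obtain ⟨t', p', e1, a1, a2, -, -⟩ := O1.params m1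
  have hsm := O1.small.2.2
  have hs1 := O1.D.sg_le
  set ζ := sol W c d s u t p τ with hζ
  set y := t' - t with hy
  have hp' : t' = t + y := by rw [hy]; ring
  have y0 : 0 ≤ y := by linarith
  have y1 : y ≤ 1 := by linarith
  set e : ℂ := (W.F (r + y) - W.F r) - (W.F (t + y) - W.F t) with he
  have ne : ‖e‖ ≤ η := by rw [he, norm_sub_rev]; exact h2 y y0 y1
  have e2 : W.F (r + y) + W.G p' = W.F r + W.G p + (ζ + e) := by
    rw [hp'] at e1
    rw [he]; linear_combination e1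
  have hm : ζ + e ∈ Reg c d T := by
    have h3 := O1.sol_spec.1
    rw [mem_closedBall, dist_eq_norm] at h3
    have hτ := O1.hτ
    have hτT := O1.hτT
    refine near_Reg O1.D (τ := τ) (r := τ / 2 + τ / 8) ?_ (by linarith) (by linarith)
    have e3 : ζ + e - τ • e0 c d = (ζ - τ • e0 c d) + e := by ring
    rw [e3]
    exact (norm_add_le _ _).trans (by linarith)
  have hc : ‖E W s u r p (ζ + e) - E W s u t p ζ‖ ≤ η := by
    rw [E_val e2, E_val e1, hp', ← sub_mul, ← mul_sub, norm_mul, norm_mul, norm_mul,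
      Quaternion.norm_star, Quaternion.norm_star, W.ua, W.ub, W.ub, one_mul, mul_one, mul_one,
      norm_sub_rev]
    exact h1 y y0 y1
  have := cmp_height O2.lin8 (ζ1' := ζ + e) O1.sol_spec.2 hc hm O2.sol_mem O2.sol_spec.2
  rw [sub_self, norm_zero, add_zero] at this
  exact this

/-- A small gap between two sheets at a small scale. -/
theorem hgt_gap {k T k' T' s u t1 p1 t2 p2 τ ε : ℝ} (O1 : Ok W c d k T s u t1 p1 τ)
    (O2 : Ok W c d k T s u t2 p2 τ) (hk' : 0 < k') (hT' : 0 < T') (hτ' : τ = T' / 4)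
    (hTT : T' ≤ T)
    (n1 : NE W c d k' T' p1) (n2 : NE W c d k' T' p2) (hε : 0 < ε) (hε1 : ε ≤ τ / 64)
    (h : |hgt W c d s u t1 p1 τ - hgt W c d s u t2 p2 τ| ≤ ε) :
    ∃ s1 u1 s2 u2, t1 + τ / 4 ≤ s1 ∧ s1 ≤ t1 + (2 * T' + k') / Real.sin (d - c) ∧ |u1 - p1| ≤ k' ∧
      t2 + τ / 4 ≤ s2 ∧ s2 ≤ t2 + (2 * T' + k') / Real.sin (d - c) ∧ |u2 - p2| ≤ k' ∧
      ‖W.a s1 * W.b u1 - W.a s2 * W.b u2‖ ≤ 2 * ε ∧ ((s1 = s2 ∧ u1 = u2) ∨
        (‖zL ((W.b u1 * star (W.b u2)) * kq * star (W.b u1 * star (W.b u2)))‖ ≤ 64 * ε / τ ∧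
        ‖zL (star (star (W.a s2) * W.a s1) * kq * (star (W.a s2) * W.a s1))‖ ≤ 64 * ε / τ)) := by
  have D := O1.D
  have hτ := O1.hτ
  have hσ := D.sg_pos
  have hτT := O1.hτT
  have hk1 := O1.small.2.1
  have hTk := O1.hTk
  set ζ1 := sol W c d s u t1 p1 τ with hζ1
  set ζ2 := sol W c d s u t2 p2 τ with hζ2
  have hsub : ∀ ζ0 ∈ closedBall (τ • e0 c d) (τ / 2), ∀ x ∈ closedBall ζ0 (τ / 4),
      ‖x - τ • e0 c d‖ ≤ 3 * τ / 4 := by
    intro ζ0 h0 x hx
    rw [mem_closedBall, dist_eq_norm] at h0 hx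
    have e : x - τ • e0 c d = (x - ζ0) + (ζ0 - τ • e0 c d) := by ring
    rw [e]
    exact (norm_add_le _ _).trans (by linarith)
  have m1 := hsub ζ1 O1.sol_spec.1
  have m2 := hsub ζ2 O2.sol_spec.1
  have r1 : ∀ x, ‖x - τ • e0 c d‖ ≤ 3 * τ / 4 → x ∈ Reg c d T' := fun x hx =>
    near_Reg D hx (by linarith) (by linarith)
  have r2 : ∀ x, ‖x - τ • e0 c d‖ ≤ 3 * τ / 4 → x ∈ Reg c d T := fun x hx =>
    near_Reg D hx (by linarith) (by linarith)
  have q1 := O1.params O1.sol_mem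
  have q2 := O2.params O2.sol_mem
  obtain ⟨_, _, w1, -⟩ := q1
  obtain ⟨_, _, w2, -⟩ := q2
  have hXY : ‖E W s u t1 p1 ζ1 - E W s u t2 p2 ζ2‖ ≤ 2 * ε :=
    unit_ext (norm_E w1) (norm_E w2) (O1.near_one O1.sol_mem) (O2.near_one O2.sol_mem)
      (by rw [O1.sol_spec.2, O2.sol_spec.2]) h
  obtain ⟨x, hx, y, hy, hdist, hconc⟩ := gap (X := E W s u t1 p1) (Y := E W s u t2 p2)
    (ζ1 := ζ1) (ζ2 := ζ2) (ρ := τ / 4) (ε := ε) (by positivity) hε (by linarith) (by linarith)
    (O1.lin8.mono (fun x hx => r2 x (m1 x hx)) le_rfl)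
    (O2.lin8.mono (fun x hx => r2 x (m2 x hx)) le_rfl) hXY
  obtain ⟨s1, u1, f1⟩ := chart D hk' hT' n1 t1 (r1 x (m1 x hx))
  obtain ⟨s2, u2, f2⟩ := chart D hk' hT' n2 t2 (r1 y (m2 y hy))
  obtain ⟨a1, a2, a3, a4⟩ := loc D n1 (r1 x (m1 x hx)) f1
  obtain ⟨b1, b2, b3, b4⟩ := loc D n2 (r1 y (m2 y hy)) f2
  obtain ⟨c1, -, c3, -⟩ := near_coord D (m1 x hx)
  obtain ⟨d1, -, d3, -⟩ := near_coord D (m2 y hy)
  have a5 : τ / 4 ≤ s1 - t1 := le_trans (le_min (by linarith) (by linarith)) a4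
  have b5 : τ / 4 ≤ s2 - t2 := le_trans (le_min (by linarith) (by linarith)) b4
  have vx := E_val (s := s) (u := u) f1
  have vy := E_val (s := s) (u := u) f2
  have e3 : ∀ x y : ℝ, W.a s * (star (W.a s) * W.a x * (W.b y * star (W.b u))) * W.b u =
      W.a x * W.b y := by
    intro x y
    have : W.a s * (star (W.a s) * W.a x * (W.b y * star (W.b u))) * W.b u =
      (W.a s * star (W.a s)) * W.a x * W.b y * (star (W.b u) * W.b u) := by
      simp only [mul_assoc]
    rw [this, self_mul_star1 (W.ua s), star_mul_self1 (W.ub u), one_mul, mul_one]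
  refine ⟨s1, u1, s2, u2, by linarith, by linarith, a3, by linarith, by linarith, b3, ?_, ?_⟩
  · rw [vx, vy] at hdist
    have e4 : W.a s1 * W.b u1 - W.a s2 * W.b u2 = W.a s * (star (W.a s) * W.a s1 *
        (W.b u1 * star (W.b u)) - star (W.a s) * W.a s2 * (W.b u2 * star (W.b u))) * W.b u := by
      rw [mul_sub, sub_mul, e3, e3]
    rw [e4, norm_mul, norm_mul, W.ua, W.ub, one_mul, mul_one]
    exact hdist
  · have ha : ∀ x, ‖star (W.a s) * W.a x‖ = 1 := fun x => by
      rw [norm_mul, Quaternion.norm_star, W.ua, W.ua, one_mul]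
    have hb : ∀ x, ‖W.b x * star (W.b u)‖ = 1 := fun x => by
      rw [norm_mul, Quaternion.norm_star, W.ub, W.ub, one_mul]
    rcases hconc _ _ _ _ (ha s1) (hb u1) (ha s2) (hb u2) vx vy (E_deriv f1) (E_deriv f2) with h1 | h1
    · left
      rw [vx, vy] at h1
      have h2 : W.a s * (star (W.a s) * W.a s1 * (W.b u1 * star (W.b u))) * W.b u =
        W.a s * (star (W.a s) * W.a s2 * (W.b u2 * star (W.b u))) * W.b u := by rw [h1]
      rw [e3, e3] at h2
      exact W.abi _ _ _ _ h2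
    · right
      have e5 : W.b u1 * star (W.b u) * star (W.b u2 * star (W.b u)) = W.b u1 * star (W.b u2) := by
        rw [star_mul, star_star]
        have : W.b u1 * star (W.b u) * (W.b u * star (W.b u2)) =
          W.b u1 * (star (W.b u) * W.b u) * star (W.b u2) := by simp only [mul_assoc]
        rw [this, star_mul_self1 (W.ub u), mul_one]
      have e6 : star (star (W.a s) * W.a s2) * (star (W.a s) * W.a s1) = star (W.a s2) * W.a s1 := by
        rw [star_mul, star_star]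
        have : star (W.a s2) * W.a s * (star (W.a s) * W.a s1) =
          star (W.a s2) * (W.a s * star (W.a s)) * W.a s1 := by simp only [mul_assoc]
        rw [this, self_mul_star1 (W.ua s), mul_one]
      rw [e5, e6] at h1
      have e7 : 16 * ε / (τ / 4) = 64 * ε / τ := by field_simp; norm_num
      rw [e7] at h1
      exact h1

end Pool.Agent.Helper885.Emb
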