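import Pool.Agent.Helper885.Emb.Chart
import Pool.Agent.Helper253.Emb.Bounds

set_option autoImplicit false
set_option linter.unusedSectionVars false

namespace Pool.Agent.Helper885.Emb

open Quaternion Topology Set Metric Filter
open scoped ContDiff
open Pool.Agent.Helper253 Pool.Agent.Helper253.Net Pool.Agent.Helper253.Emb

/-- `X` is close to the linear map `hat` on `Y`. -/
def Lin (X : ℂ → ℍ[ℝ]) (Y : Set ℂ) (ε : ℝ) : Prop :=
  ∀ x ∈ Y, ∀ y ∈ Y, ‖X x - X y - hat (x - y)‖ ≤ ε * ‖x - y‖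

theorem Lin.mono {X : ℂ → ℍ[ℝ]} {Y Z : Set ℂ} {ε δ : ℝ} (h : Lin X Y ε) (hZ : Z ⊆ Y)
    (hε : ε ≤ δ) : Lin X Z δ := fun x hx y hy =>
  (h x (hZ hx) y (hZ hy)).trans (mul_le_mul_of_nonneg_right hε (norm_nonneg _))

theorem Lin.zL {X : ℂ → ℍ[ℝ]} {Y : Set ℂ} {ε : ℝ} (h : Lin X Y ε) {x y : ℂ} (hx : x ∈ Y)
    (hy : y ∈ Y) : ‖zL (X x) - zL (X y) - (x - y)‖ ≤ ε * ‖x - y‖ := by
  refine le_trans ?_ (h x hx y hy)
  have e : Emb.zL (X x) - Emb.zL (X y) - (x - y) = Emb.zL (X x - X y - hat (x - y)) := by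
    rw [map_sub, map_sub]
    congr 1
  rw [e]
  exact norm_zL_le _

theorem Lin.kL {X : ℂ → ℍ[ℝ]} {Y : Set ℂ} {ε : ℝ} (h : Lin X Y ε) {x y : ℂ} (hx : x ∈ Y)
    (hy : y ∈ Y) : |kL (X x) - kL (X y)| ≤ ε * ‖x - y‖ := by
  refine le_trans ?_ (h x hx y hy)
  have e : Emb.kL (X x) - Emb.kL (X y) = Emb.kL (X x - X y - hat (x - y)) := by
    rw [map_sub, map_sub]
    have : Emb.kL (hat (x - y)) = 0 := rfl
    rw [this, sub_zero]
  rw [e]
  exact abs_kL_le _

theorem Lin.sep {X : ℂ → ℍ[ℝ]} {Y : Set ℂ} (h : Lin X Y (1 / 8)) {x y : ℂ} (hx : x ∈ Y)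
    (hy : y ∈ Y) : 7 / 8 * ‖x - y‖ ≤ ‖Emb.zL (X x) - Emb.zL (X y)‖ := by
  have h1 := h.zL hx hy
  have h2 : ‖x - y‖ ≤ ‖Emb.zL (X x) - Emb.zL (X y)‖ +
      ‖Emb.zL (X x) - Emb.zL (X y) - (x - y)‖ := by
    have e : x - y = (Emb.zL (X x) - Emb.zL (X y)) - (Emb.zL (X x) - Emb.zL (X y) - (x - y)) := by
      ring
    calc ‖x - y‖ = ‖(Emb.zL (X x) - Emb.zL (X y)) -
          (Emb.zL (X x) - Emb.zL (X y) - (x - y))‖ := by rw [← e]
      _ ≤ _ := norm_sub_le _ _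
  linarith

theorem Lin.sep' {X : ℂ → ℍ[ℝ]} {Y : Set ℂ} (h : Lin X Y (1 / 8)) {x y : ℂ} (hx : x ∈ Y)
    (hy : y ∈ Y) : 7 / 8 * ‖x - y‖ ≤ ‖X x - X y‖ := by
  refine (h.sep hx hy).trans ?_
  rw [← map_sub]
  exact norm_zL_le _

theorem Lin.up {X : ℂ → ℍ[ℝ]} {Y : Set ℂ} (h : Lin X Y (1 / 8)) {x y : ℂ} (hx : x ∈ Y)
    (hy : y ∈ Y) : ‖X x - X y‖ ≤ 9 / 8 * ‖x - y‖ := by
  have h1 := h x hx y hy
  have h2 : ‖X x - X y‖ ≤ ‖X x - X y - hat (x - y)‖ + ‖hat (x - y)‖ := by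
    have := norm_add_le (X x - X y - hat (x - y)) (hat (x - y))
    rwa [sub_add_cancel] at this
  rw [norm_hat] at h2
  linarith

theorem Lin.cont {X : ℂ → ℍ[ℝ]} {Y : Set ℂ} (h : Lin X Y (1 / 8)) : ContinuousOn X Y := by
  intro x hx
  rw [ContinuousWithinAt, Metric.tendsto_nhdsWithin_nhds]
  intro ε hε
  refine ⟨ε / 2, by positivity, fun {y} hy hd => ?_⟩
  rw [dist_eq_norm] at hd ⊢
  have := h.up hy hx
  linarith

/-- Existence of the solution. -/
theorem exists_sol {X : ℂ → ℍ[ℝ]} {z0 w : ℂ} {ρ : ℝ} (hρ : 0 ≤ ρ)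
    (h : Lin X (closedBall z0 ρ) (1 / 8)) (h0 : ‖zL (X z0) - w‖ ≤ ρ / 2) :
    ∃ ζ ∈ closedBall z0 ρ, zL (X ζ) = w := by
  have hA : ApproximatesLinearOn (fun z => zL (X z)) (ContinuousLinearMap.id ℝ ℂ)
      (closedBall z0 ρ) (1 / 8 : NNReal) := by
    intro p hp q hq
    have := h.zL hp hq
    simpa using this
  let R : (ContinuousLinearMap.id ℝ ℂ).NonlinearRightInverse :=
    { toFun := fun y => y
      nnnorm := 1
      bound' := fun y => by simp
      right_inv' := fun y => rfl }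
  have h2 := hA.surjOn_closedBall_of_nonlinearRightInverse R (ε := ρ) (b := z0) hρ subset_rfl
  have hQ' : w ∈ closedBall (zL (X z0)) (((R.nnnorm : ℝ)⁻¹ - ((1 / 8 : NNReal) : ℝ)) * ρ) := by
    rw [mem_closedBall, dist_eq_norm]
    have e1 : (R.nnnorm : ℝ) = 1 := rfl
    rw [e1]
    have e3 : ((1 : ℝ)⁻¹ - ((1 / 8 : NNReal) : ℝ)) * ρ = 7 / 8 * ρ := by
      push_cast; ring
    rw [e3, norm_sub_rev]
    linarith
  obtain ⟨q, hq, h3⟩ := h2 hQ'
  exact ⟨q, hq, h3⟩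

/-- Comparison of heights. -/
theorem cmp_height {X1 X2 : ℂ → ℍ[ℝ]} {Y : Set ℂ} (L2 : Lin X2 Y (1 / 8)) {ζ1 ζ1' ζ2 w1 w2 : ℂ}
    {δ : ℝ} (h1 : zL (X1 ζ1) = w1) (hc : ‖X2 ζ1' - X1 ζ1‖ ≤ δ) (m1 : ζ1' ∈ Y) (m2 : ζ2 ∈ Y)
    (h2 : zL (X2 ζ2) = w2) : |kL (X2 ζ2) - kL (X1 ζ1)| ≤ 2 * δ + ‖w2 - w1‖ := by
  have a1 := L2.sep m2 m1
  have a2 := L2.kL m2 m1
  have a3 : ‖zL (X2 ζ2) - zL (X2 ζ1')‖ ≤ ‖w2 - w1‖ + δ := by
    have e : zL (X2 ζ2) - zL (X2 ζ1') = (w2 - w1) - zL (X2 ζ1' - X1 ζ1) := by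
      rw [map_sub, h1, h2]; ring
    rw [e]
    refine (norm_sub_le _ _).trans ?_
    have := (norm_zL_le (X2 ζ1' - X1 ζ1)).trans hc
    linarith
  have a4 : |kL (X2 ζ1') - kL (X1 ζ1)| ≤ δ := by
    rw [← map_sub]
    exact (abs_kL_le _).trans hc
  have a5 : |kL (X2 ζ2) - kL (X1 ζ1)| ≤ |kL (X2 ζ2) - kL (X2 ζ1')| +
      |kL (X2 ζ1') - kL (X1 ζ1)| := by
    have := abs_add_le (kL (X2 ζ2) - kL (X2 ζ1')) (kL (X2 ζ1') - kL (X1 ζ1))
    rwa [sub_add_sub_cancel] at this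
  have := norm_nonneg (w2 - w1)
  have hδ : 0 ≤ δ := (norm_nonneg _).trans hc
  linarith

theorem ip_hat_right (q : ℍ[ℝ]) (z : ℂ) : ip q (hat z) = (zL q).re * z.re + (zL q).im * z.im := by
  rw [ip_eq]; simp [zL_re, zL_im]

theorem zL_zero_of_ip {q : ℍ[ℝ]} (h : ∀ z : ℂ, ip q (hat z) = 0) : zL q = 0 := by
  have h1 := h 1
  have h2 := h Complex.I
  rw [ip_hat_right] at h1 h2
  apply Complex.ext
  · simpa using h1
  · simpa using h2

theorem re_hat_mul (z : ℂ) (q : ℍ[ℝ]) :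
    (hat z * q).re = -((zL q).re * z.re + (zL q).im * z.im) := by
  simp [zL_re, zL_im]; ring

theorem deriv_nonneg {f : ℝ → ℝ} {f' : ℝ} (h : HasDerivAt f f' 0)
    (hm : ∀ᶠ t in 𝓝[>] (0 : ℝ), f 0 ≤ f t) : 0 ≤ f' := by
  have h1 : Tendsto (slope f 0) (𝓝[>] (0 : ℝ)) (𝓝 f') := (hasDerivAt_iff_tendsto_slope.1 h).mono_left
    (nhdsWithin_mono (0 : ℝ) (fun x (hx : 0 < x) => (ne_of_gt hx : x ≠ 0)))
  refine ge_of_tendsto h1 ?_
  filter_upwards [hm, self_mem_nhdsWithin] with t ht ht0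
  rw [slope_def_field, sub_zero]
  have ht0' : 0 < t := ht0
  exact div_nonneg (by linarith) ht0'.le

theorem hasDerivAt_normSq {g : ℝ → ℍ[ℝ]} {g' : ℍ[ℝ]} {x : ℝ} (h : HasDerivAt g g' x) :
    HasDerivAt (fun t => ‖g t‖ ^ 2) (2 * ip (g x) g') x := by
  have e : (fun t => ‖g t‖ ^ 2) = fun t => (g t).re * (g t).re + (g t).imI * (g t).imI +
      (g t).imJ * (g t).imJ + (g t).imK * (g t).imK := by
    funext t; rw [norm_sq_eq]; ring
  have hr : HasDerivAt (fun t => (g t).re) g'.re x := reL.hasFDerivAt.comp_hasDerivAt x h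
  have hk : HasDerivAt (fun t => (g t).imK) g'.imK x := Emb.kL.hasFDerivAt.comp_hasDerivAt x h
  have hz : HasDerivAt (fun t => Emb.zL (g t)) (Emb.zL g') x :=
    Emb.zL.hasFDerivAt.comp_hasDerivAt x h
  have hi : HasDerivAt (fun t => (g t).imI) g'.imI x := hasDerivAt_re hz
  have hj : HasDerivAt (fun t => (g t).imJ) g'.imJ x := hasDerivAt_im hz
  rw [e]
  refine (((hr.mul hr).add (hi.mul hi)).add (hj.mul hj)).add (hk.mul hk) |>.congr_deriv ?_
  rw [ip_eq]; ring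

/-- A unit quaternion without horizontal part. -/
theorem conj_unit {q h : ℍ[ℝ]} (hh : ‖h‖ = 1) (hz : zL q = 0) :
    zL (h * q * star h) = kL q • zL (h * kq * star h) := by
  have e : q = reL q • (1 : ℍ[ℝ]) + kL q • kq := by
    have := decomp q
    rw [hz, map_zero, add_zero] at this
    exact this
  have e2 : h * q * star h = reL q • (1 : ℍ[ℝ]) + kL q • (h * kq * star h) := by
    conv_lhs => rw [e]
    rw [mul_add, add_mul, mul_smul_comm, mul_smul_comm, smul_mul_assoc, smul_mul_assoc, mul_one,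
      self_mul_star1 hh]
  rw [e2, map_add, map_smul, map_smul]
  have : zL (1 : ℍ[ℝ]) = 0 := by
    apply Complex.ext <;> simp [zL_re, zL_im]
  rw [this, smul_zero, zero_add]

/-- A small gap produces a place with a small gap and a small tilt. -/
theorem gap {X Y : ℂ → ℍ[ℝ]} {ζ1 ζ2 : ℂ} {ρ ε : ℝ} (hρ : 0 < ρ) (hε : 0 < ε) (hερ : ε ≤ ρ / 16)
    (hε4 : ε ≤ 1 / 4) (LX : Lin X (closedBall ζ1 ρ) (1 / 8)) (LY : Lin Y (closedBall ζ2 ρ) (1 / 8))
    (hXY : ‖X ζ1 - Y ζ2‖ ≤ 2 * ε) :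
    ∃ x ∈ closedBall ζ1 ρ, ∃ y ∈ closedBall ζ2 ρ, ‖X x - Y y‖ ≤ 2 * ε ∧
      ∀ A B A' B' : ℍ[ℝ], ‖A‖ = 1 → ‖B‖ = 1 → ‖A'‖ = 1 → ‖B'‖ = 1 → X x = A * B → Y y = A' * B' →
        HasFDerivAt X (lr A B) x → HasFDerivAt Y (lr A' B') y →
        X x = Y y ∨ (‖zL ((B * star B') * kq * star (B * star B'))‖ ≤ 16 * ε / ρ ∧
          ‖zL (star (star A' * A) * kq * (star A' * A))‖ ≤ 16 * ε / ρ) := by
  set lam : ℝ := 8 * ε / ρ ^ 2 with hlam
  have hlam0 : 0 < lam := by positivity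
  have hK : IsCompact (closedBall ζ1 ρ ×ˢ closedBall ζ2 ρ) :=
    (isCompact_closedBall _ _).prod (isCompact_closedBall _ _)
  have hmem : (ζ1, ζ2) ∈ closedBall ζ1 ρ ×ˢ closedBall ζ2 ρ :=
    ⟨mem_closedBall_self hρ.le, mem_closedBall_self hρ.le⟩
  have hcont : ContinuousOn (fun p : ℂ × ℂ => ‖X p.1 - Y p.2‖ + lam * ‖p.1 - ζ1‖ ^ 2)
      (closedBall ζ1 ρ ×ˢ closedBall ζ2 ρ) := by
    have c1 : ContinuousOn (fun p : ℂ × ℂ => X p.1) (closedBall ζ1 ρ ×ˢ closedBall ζ2 ρ) :=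
      LX.cont.comp continuousOn_fst (fun p hp => hp.1)
    have c2 : ContinuousOn (fun p : ℂ × ℂ => Y p.2) (closedBall ζ1 ρ ×ˢ closedBall ζ2 ρ) :=
      LY.cont.comp continuousOn_snd (fun p hp => hp.2)
    have c3 : ContinuousOn (fun p : ℂ × ℂ => lam * ‖p.1 - ζ1‖ ^ 2)
      (closedBall ζ1 ρ ×ˢ closedBall ζ2 ρ) := by fun_prop
    exact (c1.sub c2).norm.add c3
  obtain ⟨⟨x, y⟩, ⟨hx, hy⟩, hmin⟩ := hK.exists_isMinOn ⟨_, hmem⟩ hcont
  simp only at hx hy
  have hmin' : ∀ x' ∈ closedBall ζ1 ρ, ∀ y' ∈ closedBall ζ2 ρ,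
      ‖X x - Y y‖ + lam * ‖x - ζ1‖ ^ 2 ≤ ‖X x' - Y y'‖ + lam * ‖x' - ζ1‖ ^ 2 :=
    fun x' hx' y' hy' => hmin (show (x', y') ∈ closedBall ζ1 ρ ×ˢ closedBall ζ2 ρ from ⟨hx', hy'⟩)
  have h0 := hmin' ζ1 hmem.1 ζ2 hmem.2
  rw [sub_self, norm_zero] at h0
  have h0' : ‖X x - Y y‖ + lam * ‖x - ζ1‖ ^ 2 ≤ 2 * ε := by
    have : lam * (0 : ℝ) ^ 2 = 0 := by ring
    linarith
  have hδ : ‖X x - Y y‖ ≤ 2 * ε := by
    have : 0 ≤ lam * ‖x - ζ1‖ ^ 2 := by positivity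
    linarith
  have hx2 : ‖x - ζ1‖ ≤ ρ / 2 := by
    have h1 : lam * ‖x - ζ1‖ ^ 2 ≤ 2 * ε := by linarith [norm_nonneg (X x - Y y)]
    have h2 : ‖x - ζ1‖ ^ 2 ≤ (ρ / 2) ^ 2 := by
      rw [hlam, div_mul_eq_mul_div, div_le_iff₀ (by positivity)] at h1
      have : 8 * ε * ‖x - ζ1‖ ^ 2 ≤ 8 * ε * (ρ / 2) ^ 2 := by nlinarith
      exact le_of_mul_le_mul_left this (by positivity)
    exact (sq_le_sq₀ (norm_nonneg _) (by positivity)).1 h2
  have hy2 : ‖y - ζ2‖ < ρ := by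
    have h1 := LY.sep' hy (mem_closedBall_self hρ.le)
    have h2 := LX.up hx (mem_closedBall_self hρ.le)
    have h3 : ‖Y y - Y ζ2‖ ≤ ‖X x - Y y‖ + ‖X x - X ζ1‖ + ‖X ζ1 - Y ζ2‖ := by
      have e : Y y - Y ζ2 = -(X x - Y y) + (X x - X ζ1) + (X ζ1 - Y ζ2) := by abel
      rw [e]
      refine (norm_add₃_le).trans ?_
      rw [norm_neg]
    linarith
  refine ⟨x, hx, y, hy, hδ, ?_⟩
  intro A B A' B' uA uB uA' uB' eX eY dX dY
  by_cases hne : X x = Y y
  · exact Or.inl hne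
  right
  have hδ0 : 0 < ‖X x - Y y‖ := norm_pos_iff.2 (sub_ne_zero.2 hne)
  set δ : ℝ := ‖X x - Y y‖ with hδd
  -- first order condition in y
  have foc_y : ∀ z : ℂ, ip (X x - Y y) (A' * hat z * B') = 0 := by
    intro z
    have hline : HasDerivAt (fun t : ℝ => y + t • z) z 0 := by
      have h1 : HasDerivAt (fun t : ℝ => t • z) ((1 : ℝ) • z) 0 := (hasDerivAt_id 0).smul_const z
      rw [one_smul] at h1
      exact h1.const_add y
    have hY0 : HasFDerivAt Y (lr A' B') (y + (0 : ℝ) • z) := by rw [zero_smul, add_zero]; exact dY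
    have h2 : HasDerivAt (fun t : ℝ => X x - Y (y + t • z)) (-(lr A' B' z)) 0 := by
      have := (hY0.comp_hasDerivAt (0 : ℝ) hline).const_sub (X x)
      exact this
    have h3 := hasDerivAt_normSq h2
    have hmin0 : IsLocalMin (fun t : ℝ => ‖X x - Y (y + t • z)‖ ^ 2) 0 := by
      have hcl : ContinuousAt (fun t : ℝ => y + t • z) 0 := hline.continuousAt
      have hb : ∀ᶠ t in 𝓝 (0 : ℝ), y + t • z ∈ ball ζ2 ρ := by
        refine hcl.eventually_mem (isOpen_ball.mem_nhds ?_)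
        rw [zero_smul, add_zero, mem_ball, dist_eq_norm]
        exact hy2
      filter_upwards [hb] with t ht
      have h4 := hmin' x hx (y + t • z) (ball_subset_closedBall ht)
      simp only [zero_smul, add_zero]
      exact pow_le_pow_left₀ (norm_nonneg _) (by linarith) 2
    have h5 := hmin0.hasDerivAt_eq_zero h3
    simp only [zero_smul, add_zero] at h5
    have h6 : ip (X x - Y y) (-(lr A' B' z)) = -ip (X x - Y y) (lr A' B' z) := by
      rw [ip_eq, ip_eq]; simp; ring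
    rw [h6] at h5
    rw [lr_apply] at h5
    linarith
  -- first order condition in x
  have foc_x : ∀ z : ℂ, -(δ * (lam * ρ) * ‖z‖) ≤ ip (X x - Y y) (A * hat z * B) := by
    intro z
    have hline : HasDerivAt (fun t : ℝ => x + t • z) z 0 := by
      have h1 : HasDerivAt (fun t : ℝ => t • z) ((1 : ℝ) • z) 0 := (hasDerivAt_id 0).smul_const z
      rw [one_smul] at h1
      exact h1.const_add x
    have hX0 : HasFDerivAt X (lr A B) (x + (0 : ℝ) • z) := by rw [zero_smul, add_zero]; exact dX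
    have h2 : HasDerivAt (fun t : ℝ => X (x + t • z) - Y y) (lr A B z) 0 := by
      have := (hX0.comp_hasDerivAt (0 : ℝ) hline).sub_const (Y y)
      exact this
    have h3 := hasDerivAt_normSq h2
    have h4 : HasDerivAt (fun t : ℝ => ‖X (x + t • z) - Y y‖ ^ 2 +
        2 * δ * lam * (ρ * t * ‖z‖ + t ^ 2 * ‖z‖ ^ 2))
        (2 * ip (X (x + (0 : ℝ) • z) - Y y) (lr A B z) + 2 * δ * lam * (ρ * ‖z‖)) 0 := by
      have h5 : HasDerivAt (fun t : ℝ => 2 * δ * lam * (ρ * t * ‖z‖ + t ^ 2 * ‖z‖ ^ 2))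
          (2 * δ * lam * (ρ * ‖z‖)) 0 := by
        have a1 : HasDerivAt (fun t : ℝ => ρ * t * ‖z‖) (ρ * 1 * ‖z‖) 0 :=
          ((hasDerivAt_id (0 : ℝ)).const_mul ρ).mul_const ‖z‖
        have a2 : HasDerivAt (fun t : ℝ => t ^ 2 * ‖z‖ ^ 2) ((2 * (0 : ℝ) ^ 1) * ‖z‖ ^ 2) 0 :=
          (hasDerivAt_pow 2 (0 : ℝ)).mul_const (‖z‖ ^ 2)
        refine ((a1.add a2).const_mul (2 * δ * lam)).congr_deriv ?_
        ring
      exact h3.add h5
    have hb : ∀ᶠ t in 𝓝[>] (0 : ℝ), x + t • z ∈ ball ζ1 ρ := by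
      refine (hline.continuousAt.eventually_mem (isOpen_ball.mem_nhds ?_)).filter_mono
        nhdsWithin_le_nhds
      rw [zero_smul, add_zero, mem_ball, dist_eq_norm]
      linarith
    have h6 := deriv_nonneg h4 (by
      filter_upwards [hb, self_mem_nhdsWithin] with t ht ht0
      have ht0' : (0 : ℝ) < t := ht0
      have h7 := hmin' (x + t • z) (ball_subset_closedBall ht) y hy
      simp only [zero_smul, add_zero]
      have h8 : ‖x + t • z - ζ1‖ ≤ ‖x - ζ1‖ + t * ‖z‖ := by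
        have e : x + t • z - ζ1 = (x - ζ1) + t • z := by ring
        rw [e]
        refine (norm_add_le _ _).trans ?_
        rw [norm_smul, Real.norm_eq_abs, abs_of_pos ht0']
      have h9 : ‖x + t • z - ζ1‖ ^ 2 ≤ ‖x - ζ1‖ ^ 2 + (ρ * t * ‖z‖ + t ^ 2 * ‖z‖ ^ 2) := by
        have h10 : ‖x + t • z - ζ1‖ ^ 2 ≤ (‖x - ζ1‖ + t * ‖z‖) ^ 2 :=
          pow_le_pow_left₀ (norm_nonneg _) h8 2
        have h11 : 2 * ‖x - ζ1‖ * (t * ‖z‖) ≤ ρ * (t * ‖z‖) :=
          mul_le_mul_of_nonneg_right (by linarith) (by positivity)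
        nlinarith
      have h12 : δ - lam * (ρ * t * ‖z‖ + t ^ 2 * ‖z‖ ^ 2) ≤ ‖X (x + t • z) - Y y‖ := by
        have := mul_le_mul_of_nonneg_left h9 hlam0.le
        linarith
      set e1 : ℝ := lam * (ρ * t * ‖z‖ + t ^ 2 * ‖z‖ ^ 2) with he1
      have he1n : 0 ≤ e1 := by positivity
      have h13 : δ ^ 2 - 2 * δ * e1 ≤ ‖X (x + t • z) - Y y‖ ^ 2 := by
        rcases le_total 0 (δ - e1) with h | h
        · have := pow_le_pow_left₀ h h12 2
          nlinarith [sq_nonneg e1]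
        · have : δ * (δ - 2 * e1) ≤ 0 := mul_nonpos_of_nonneg_of_nonpos hδ0.le (by linarith)
          nlinarith [sq_nonneg ‖X (x + t • z) - Y y‖]
      have e2 : 2 * δ * lam * (ρ * t * ‖z‖ + t ^ 2 * ‖z‖ ^ 2) = 2 * δ * e1 := by
        rw [he1]; ring
      rw [e2]
      have e3 : ‖X x - Y y‖ ^ 2 + 2 * δ * lam * (ρ * 0 * ‖z‖ + 0 ^ 2 * ‖z‖ ^ 2) = δ ^ 2 := by
        rw [hδd]; ring
      rw [e3]
      linarith)
    rw [zero_smul, add_zero, lr_apply] at h6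
    nlinarith
  -- algebra
  set g : ℍ[ℝ] := star A' * A with hg
  set h : ℍ[ℝ] := B * star B' with hh
  have ug : ‖g‖ = 1 := by rw [hg, norm_mul, norm_star, uA, uA', one_mul]
  have uh : ‖h‖ = 1 := by rw [hh, norm_mul, norm_star, uB, uB', one_mul]
  have e0 : star A' * (X x - Y y) * star B' = g * h - 1 := by
    rw [eX, eY, mul_sub, sub_mul, hg, hh]
    have e1 : star A' * (A' * B') * star B' = 1 := by
      rw [← mul_assoc, star_mul_self1 uA', one_mul, self_mul_star1 uB']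
    rw [e1]
    simp only [mul_assoc]
  have tr : ∀ p q : ℍ[ℝ], ip p q = ip (star A' * p * star B') (star A' * q * star B') := by
    intro p q
    rw [ip_mul_right (by rw [norm_star, uB']), ip_mul_left (by rw [norm_star, uA'])]
  have hz0 : zL (g * h) = 0 := by
    have : ∀ z : ℂ, ip (g * h - 1) (hat z) = 0 := by
      intro z
      have h1 := foc_y z
      rw [tr, e0] at h1
      have e1 : star A' * (A' * hat z * B') * star B' = hat z := by
        have : star A' * (A' * hat z * B') * star B' = (star A' * A') * hat z * (B' * star B') := by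
          simp only [mul_assoc]
        rw [this, star_mul_self1 uA', self_mul_star1 uB', one_mul, mul_one]
      rwa [e1] at h1
    have h2 := zL_zero_of_ip this
    rw [map_sub] at h2
    have h3 : zL (1 : ℍ[ℝ]) = 0 := by
      apply Complex.ext <;> simp [zL_re, zL_im]
    rwa [h3, sub_zero] at h2
  have ugh : ‖g * h‖ = 1 := by rw [norm_mul, ug, uh, one_mul]
  have hdel : ‖g * h - 1‖ = δ := by
    rw [← e0, norm_mul, norm_mul, norm_star, norm_star, uA', uB', one_mul, mul_one]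
  -- size of the normal part
  have hkl : δ / 2 ≤ |kL (g * h)| := by
    have n1 := norm_sq_eq (g * h)
    have n2 := norm_sq_eq (g * h - 1)
    rw [ugh] at n1
    rw [hdel] at n2
    have z1 : (g * h).imI = 0 := by have := congrArg Complex.re hz0; simpa [zL_re] using this
    have z2 : (g * h).imJ = 0 := by have := congrArg Complex.im hz0; simpa [zL_im] using this
    have m1 : (g * h - 1).re = (g * h).re - 1 := by simp
    have m2 : (g * h - 1).imI = (g * h).imI := by simp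
    have m3 : (g * h - 1).imJ = (g * h).imJ := by simp
    have m4 : (g * h - 1).imK = (g * h).imK := by simp
    rw [m1, m2, m3, m4, z1, z2] at n2
    rw [z1, z2] at n1
    have hδ1 : δ ≤ 1 / 2 := by linarith
    have hre : (g * h).re = 1 - δ ^ 2 / 2 := by nlinarith
    have h3 : (δ / 2) ^ 2 ≤ (g * h).imK ^ 2 := by
      have : (g * h).imK ^ 2 = 1 - (1 - δ ^ 2 / 2) ^ 2 := by rw [← hre]; linarith
      rw [this]
      have h4 : δ ^ 2 ≤ 1 / 4 := by nlinarith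
      nlinarith [sq_nonneg δ]
    show δ / 2 ≤ |(g * h).imK|
    by_contra hlt
    push Not at hlt
    have h5 := sq_abs (g * h).imK
    have h6 := abs_nonneg (g * h).imK
    nlinarith
  have hzhg : ‖zL (h * g)‖ ≤ δ * (lam * ρ) := by
    have h1 : ∀ z : ℂ, (zL (h * g)).re * z.re + (zL (h * g)).im * z.im ≥ -(δ * (lam * ρ) * ‖z‖) := by
      intro z
      have h2 := foc_x z
      rw [tr, e0] at h2
      have e1 : star A' * (A * hat z * B) * star B' = g * hat z * h := by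
        rw [hg, hh]; simp only [mul_assoc]
      rw [e1, ip_sub] at h2
      have e2 : ip (g * h) (g * hat z * h) = 0 := by
        rw [mul_assoc g, ip_mul_left ug]
        have : ip (1 * h) (hat z * h) = ip 1 (hat z) := ip_mul_right uh 1 (hat z)
        rw [one_mul] at this
        rw [this, ip_eq]; simp
      have e3 : ip 1 (g * hat z * h) = (hat z * (h * g)).re := by
        have : ip 1 (g * hat z * h) = (g * hat z * h).re := by rw [ip_eq]; simp
        rw [this, mul_assoc, re_mul_comm, mul_assoc]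
      rw [e2, e3, re_hat_mul] at h2
      linarith
    by_contra hcon
    push Not at hcon
    have h2 := h1 (-(zL (h * g)))
    rw [norm_neg, Complex.neg_re, Complex.neg_im] at h2
    have h3 : ‖zL (h * g)‖ ^ 2 = (zL (h * g)).re ^ 2 + (zL (h * g)).im ^ 2 := by
      rw [Complex.sq_norm, Complex.normSq_apply]; ring
    have h4 : 0 < ‖zL (h * g)‖ := lt_of_le_of_lt (by positivity) hcon
    nlinarith
  have hlr : lam * ρ = 8 * ε / ρ := by rw [hlam]; field_simp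
  have e5 : h * (g * h) * star h = h * g := by
    have : h * (g * h) * star h = h * g * (h * star h) := by simp only [mul_assoc]
    rw [this, self_mul_star1 uh, mul_one]
  have e6 : star g * (g * h) * star (star g) = h * g := by
    rw [star_star]
    have : star g * (g * h) * g = (star g * g) * h * g := by simp only [mul_assoc]
    rw [this, star_mul_self1 ug, one_mul]
  have c1 := conj_unit uh hz0
  have c2 := conj_unit (h := star g) (by rw [Quaternion.norm_star, ug]) hz0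
  rw [e5] at c1
  rw [e6] at c2
  rw [star_star] at c2
  have fin : ∀ w : ℂ, zL (h * g) = kL (g * h) • w → ‖w‖ ≤ 16 * ε / ρ := by
    intro w hw
    rw [hw, norm_smul, Real.norm_eq_abs, hlr] at hzhg
    have h1 : δ / 2 * ‖w‖ ≤ δ * (8 * ε / ρ) :=
      (mul_le_mul_of_nonneg_right hkl (norm_nonneg _)).trans hzhg
    have h2 : δ / 2 * ‖w‖ ≤ δ / 2 * (16 * ε / ρ) := by
      have : δ / 2 * (16 * ε / ρ) = δ * (8 * ε / ρ) := by ring
      linarith
    exact le_of_mul_le_mul_left h2 (by positivity)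
  exact ⟨fin _ c1, fin _ c2⟩

end Pool.Agent.Helper885.Emb
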