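import Pool.Agent.Helper885.Emb.Four

set_option autoImplicit false
set_option linter.unusedSectionVars false

namespace Pool.Agent.Helper885.Emb

open Quaternion Topology Set Metric Filter
open scoped ContDiff
open Pool.Agent.Helper253 Pool.Agent.Helper253.Net Pool.Agent.Helper253.Emb

variable {W : Web} {c d : ℝ}

/-- Lower bound for the distance of two disjoint arcs of the second factor. -/
theorem arcs_apart {u v k : ℝ} (hk : 0 < k) (huv : 2 * k < |u - v|) :
    ∃ β > 0, β ≤ 2 ∧ ∀ x y, |x - u| ≤ k → |y - v| ≤ k → β ≤ ‖W.b x - W.b y‖ := by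
  have hK : IsCompact (Icc (u - k) (u + k) ×ˢ Icc (v - k) (v + k)) :=
    isCompact_Icc.prod isCompact_Icc
  have hne : (Icc (u - k) (u + k) ×ˢ Icc (v - k) (v + k)).Nonempty :=
    ⟨(u, v), ⟨⟨by linarith, by linarith⟩, ⟨by linarith, by linarith⟩⟩⟩
  have hc : Continuous (fun p : ℝ × ℝ => ‖W.b p.1 - W.b p.2‖) :=
    ((W.cont_b.comp continuous_fst).sub (W.cont_b.comp continuous_snd)).norm
  obtain ⟨p, hp, hmin⟩ := hK.exists_isMinOn hne hc.continuousOn
  refine ⟨‖W.b p.1 - W.b p.2‖, ?_, ?_, ?_⟩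
  · rw [gt_iff_lt, norm_pos_iff, sub_ne_zero]
    intro h
    have h2 := W.b_inj h
    obtain ⟨h3, h4⟩ := hp
    rw [← h2] at h4
    have : |u - v| ≤ 2 * k := by
      rw [abs_le]; constructor <;> linarith [h3.1, h3.2, h4.1, h4.2]
    linarith
  · refine (norm_sub_le _ _).trans ?_
    rw [W.ub, W.ub]; norm_num
  · intro x y hx hy
    rw [abs_le] at hx hy
    exact hmin (show (x, y) ∈ Icc (u - k) (u + k) ×ˢ Icc (v - k) (v + k) from
      ⟨⟨by linarith [hx.1], by linarith [hx.2]⟩, ⟨by linarith [hy.1], by linarith [hy.2]⟩⟩)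

/-- Returns of the second factor along a sequence (argument of helper108). -/
theorem b_return (W : Web) {u : ℕ → ℝ} (hu : Tendsto (fun n => |u n|) atTop atTop) {K ε : ℝ}
    (hK : 0 < K) (hε : 0 < ε) (N : ℕ) : ∃ m n, N ≤ m ∧ N ≤ n ∧ K < |u m - u n| ∧
      (∀ r, |r| ≤ K → ‖W.b (u m + r) - W.b (u n + r)‖ ≤ ε) ∧
      (∀ r, |r| ≤ K → ‖W.G (u m + r) - W.G (u m) - (W.G (u n + r) - W.G (u n))‖ ≤ ε) := by
  by_cases hup : ∀ L, ∃ n ≥ N, L ≤ u n
  · obtain ⟨s, t, ⟨m, hm, rfl⟩, ⟨n, hn, rfl⟩, hst, h1, h2⟩ :=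
      W.swap.window_pair (fun s => ∃ n ≥ N, s = u n) (fun L => by
        obtain ⟨n, hn, h⟩ := hup L
        exact ⟨u n, h, n, hn, rfl⟩) (κ := K + 1) (by linarith) hε
    refine ⟨m, n, hm, hn, ?_, fun r hr => ?_, fun r hr => ?_⟩
    · rw [abs_sub_comm, abs_of_nonneg (by linarith)]; linarith
    · have := h1 r (by linarith)
      have e : W.swap.a (u m + r) - W.swap.a (u n + r) =
          star (W.b (u m + r) - W.b (u n + r)) := by
        rw [star_sub]; rfl
      rwa [e, Quaternion.norm_star] at this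
    · have := h2 r (by linarith)
      have e : W.swap.F (u m + r) - W.swap.F (u m) - (W.swap.F (u n + r) - W.swap.F (u n)) =
          -(W.G (u m + r) - W.G (u m) - (W.G (u n + r) - W.G (u n))) := by
        show -W.G (u m + r) - -W.G (u m) - (-W.G (u n + r) - -W.G (u n)) = _
        ring
      rwa [e, norm_neg] at this
  · push Not at hup
    obtain ⟨L0, hL0⟩ := hup
    have hdown : ∀ L, ∃ n ≥ N, L ≤ -u n := by
      intro L
      obtain ⟨n, hn1, hn2⟩ := ((eventually_ge_atTop N).and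
        (hu.eventually (eventually_ge_atTop (max |L| |L0| + 1)))).exists
      have h1 := hL0 n hn1
      have h2 := le_abs_self L
      have h3 := le_abs_self L0
      have h4 := le_max_left |L| |L0|
      have h5 := le_max_right |L| |L0|
      refine ⟨n, hn1, ?_⟩
      rcases le_abs.1 hn2 with h | h <;> linarith
    obtain ⟨s, t, ⟨m, hm, rfl⟩, ⟨n, hn, rfl⟩, hst, h1, h2⟩ :=
      W.swap.swap.swap.window_pair (fun s => ∃ n ≥ N, s = -u n) (fun L => by
        obtain ⟨n, hn, h⟩ := hdown L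
        exact ⟨-u n, h, n, hn, rfl⟩) (κ := K + 1) (by linarith) hε
    have ea : ∀ x, W.swap.swap.swap.a x = star (W.b (-x)) := fun x => by
      show star (star (star (W.b (-x)))) = _
      rw [star_star]
    have eF : ∀ x, W.swap.swap.swap.F x = -W.G (-x) := fun x => by
      show - - -W.G (-x) = _
      rw [neg_neg]
    refine ⟨m, n, hm, hn, ?_, fun r hr => ?_, fun r hr => ?_⟩
    · have e : u m - u n = -u n - -u m := by ring
      rw [e, abs_of_nonneg (by linarith)]; linarith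
    · have := h1 (-r) (by rw [abs_neg]; linarith)
      have e : W.swap.swap.swap.a (-u m + -r) - W.swap.swap.swap.a (-u n + -r) =
          star (W.b (u m + r) - W.b (u n + r)) := by
        rw [ea, ea, star_sub]
        congr 3 <;> ring
      rwa [e, Quaternion.norm_star] at this
    · have := h2 (-r) (by rw [abs_neg]; linarith)
      have e1 : -(-u m + -r) = u m + r := by ring
      have e2 : -(-u n + -r) = u n + r := by ring
      rw [eF, eF, eF, eF, e1, e2, neg_neg, neg_neg] at this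
      have e : -W.G (u m + r) - -W.G (u m) - (-W.G (u n + r) - -W.G (u n)) =
          -(W.G (u m + r) - W.G (u m) - (W.G (u n + r) - W.G (u n))) := by ring
      rwa [e, norm_neg] at this

/-- No web whose second factor bends at all scales along a sequence going to infinity. -/
theorem no_NE (D : Dir W c d) {w : ℕ → ℝ} (hw : Tendsto (fun n => |w n|) atTop atTop)
    (h : ∀ k > 0, ∃ T > 0, ∀ᶠ n in atTop, NE W c d k T (w n)) : False := by
  have hσ := D.sg_pos
  have hσ1 := D.sg_le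
  obtain ⟨σ, hσd⟩ : ∃ σ, σ = Real.sin (d - c) := ⟨_, rfl⟩
  rw [← hσd] at hσ hσ1
  -- big scale
  obtain ⟨k, hkd⟩ : ∃ k, k = σ ^ 2 / 256 := ⟨_, rfl⟩
  have hk : 0 < k := by rw [hkd]; positivity
  obtain ⟨T0, hT0, hbig⟩ := h k hk
  obtain ⟨T, hTd⟩ : ∃ T, T = min T0 k := ⟨_, rfl⟩
  have hT : 0 < T := by rw [hTd]; exact lt_min hT0 hk
  have hTk : T ≤ k := by rw [hTd]; exact min_le_right _ _
  have hTT0 : T ≤ T0 := by rw [hTd]; exact min_le_left _ _
  obtain ⟨ε0, hε0, ha⟩ := W.ea (σ / 8) (by positivity)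
  -- small scale
  obtain ⟨κ, hκd⟩ : ∃ κ, κ = min (T / 1024) (min (ε0 / 8) (σ / 128)) := ⟨_, rfl⟩
  have hκ0 : 0 < κ := by rw [hκd]; positivity
  have hκT : κ ≤ T / 1024 := by rw [hκd]; exact min_le_left _ _
  have hκε : κ ≤ ε0 / 8 := by rw [hκd]; exact (min_le_right _ _).trans (min_le_left _ _)
  have hκσ : κ ≤ σ / 128 := by rw [hκd]; exact (min_le_right _ _).trans (min_le_right _ _)
  obtain ⟨k', hk'd⟩ : ∃ k', k' = σ * κ / 3 := ⟨_, rfl⟩
  have hk' : 0 < k' := by rw [hk'd]; positivity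
  have hk1 : k' ≤ κ / 3 := by rw [hk'd]; nlinarith
  have hkk : k' ≤ k := by linarith
  obtain ⟨T0', hT0', hbig'⟩ := h k' hk'
  obtain ⟨T', hT'd⟩ : ∃ T', T' = min T0' k' := ⟨_, rfl⟩
  have hT' : 0 < T' := by rw [hT'd]; exact lt_min hT0' hk'
  have hT'k : T' ≤ k' := by rw [hT'd]; exact min_le_right _ _
  have hT'0 : T' ≤ T0' := by rw [hT'd]; exact min_le_left _ _
  have hTT : T' ≤ T := by linarith
  have hκ1 : (2 * T' + k') / σ ≤ κ := by
    rw [div_le_iff₀ hσ]
    have : k' * 3 = σ * κ := by rw [hk'd]; ring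
    nlinarith
  have hT'1 : T' ≤ 1 := by
    have : κ ≤ 1 / 128 := by linarith
    linarith
  -- tightness
  obtain ⟨δ, hδd⟩ : ∃ δ, δ = min (T' / 128) (min (σ ^ 2 / 64) (ε0 / 4)) := ⟨_, rfl⟩
  have hδ : 0 < δ := by rw [hδd]; positivity
  have hδT : δ ≤ T' / 128 := by rw [hδd]; exact min_le_left _ _
  have hδσ : δ ≤ σ ^ 2 / 64 := by rw [hδd]; exact (min_le_right _ _).trans (min_le_left _ _)
  have hδε : δ ≤ ε0 / 4 := by rw [hδd]; exact (min_le_right _ _).trans (min_le_right _ _)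
  obtain ⟨ε, hεd⟩ : ∃ ε, ε = δ * (T' * σ) / 1024 := ⟨_, rfl⟩
  have hTσ : T' * σ ≤ 1 := by nlinarith
  have hTσ0 : 0 < T' * σ := by positivity
  have hε : 0 < ε := by rw [hεd]; positivity
  have hεδ' : ε ≤ δ / 1024 := by rw [hεd]; nlinarith
  have hεT : ε ≤ T' / 256 := by linarith
  have hεδ : 2 * ε + 512 * ε / (T' * σ) ≤ δ := by
    have : 512 * ε / (T' * σ) = δ / 2 := by rw [hεd]; field_simp; norm_num
    linarith
  obtain ⟨η, hηd⟩ : ∃ η, η = min (T' / 128) (ε / 8) := ⟨_, rfl⟩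
  have hη : 0 < η := by rw [hηd]; positivity
  have hηT : η ≤ T' / 128 := by rw [hηd]; exact min_le_left _ _
  have hηε : η ≤ ε / 8 := by rw [hηd]; exact min_le_right _ _
  -- windows of the second factor
  obtain ⟨N, hN⟩ := eventually_atTop.1 (hbig.and hbig')
  obtain ⟨m, n, hm, hn, huv', hb1', hb2'⟩ := b_return W hw (K := 2 * k) (by positivity) hη N
  obtain ⟨u, hu⟩ : ∃ u, u = w m := ⟨_, rfl⟩
  obtain ⟨v, hv⟩ : ∃ v, v = w n := ⟨_, rfl⟩
  rw [← hu, ← hv] at huv' hb1' hb2'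
  have nu : NE W c d k T u := by rw [hu]; exact (hN m hm).1.mono hTT0
  have nu' : NE W c d k' T' u := by rw [hu]; exact (hN m hm).2.mono hT'0
  have nv : NE W c d k T v := by rw [hv]; exact (hN n hn).1.mono hTT0
  have nv' : NE W c d k' T' v := by rw [hv]; exact (hN n hn).2.mono hT'0
  have hbuv : ‖W.b u - W.b v‖ ≤ η := by
    have := hb1' 0 (by rw [abs_zero]; positivity)
    rwa [add_zero, add_zero] at this
  have X : Four W c d k T k' T' u v η δ κ ε ε0 :=
    { D := D, hk := hk, hT := hT, hTk := hTk, hks := by rw [← hσd]; exact hkd.le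
      nu := nu, nv := nv, hk' := hk', hkk := hkk, hT' := hT', hTT := hTT
      hκ := by rw [← hσd]; exact hκ1
      nu' := nu', nv' := nv', huv := huv', hη := hbuv, hηT := hηT, hηε := hηε
      hb1 := fun y hy => hb1' y (by linarith)
      hb2 := fun y hy => hb2' y (by linarith)
      hδ0 := hδ, hδT := hδT, hδσ := by rw [← hσd]; exact hδσ
      hδε0 := hδε, hκT := hκT, hκε0 := hκε, hκσ := by rw [← hσd]; exact hκσ
      hε := hε, hεT := hεT, hεδ := by rw [← hσd]; exact hεδ
      hε0 := hε0, ha := by rw [← hσd]; exact ha }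
  -- the starting pair
  obtain ⟨β, hβ, hβ2, hbeta⟩ := arcs_apart (W := W) hk huv'
  obtain ⟨εb, hεbd⟩ : ∃ εb, εb = β * (T' * σ) / 2048 := ⟨_, rfl⟩
  have hεb : 0 < εb := by rw [hεbd]; positivity
  have hεbβ : εb ≤ β / 2048 := by rw [hεbd]; nlinarith
  have hεbT : εb ≤ T' / 256 := by rw [hεbd]; nlinarith [mul_le_mul hβ2 hσ1 hσ.le (by norm_num)]
  have hεbβ2 : 2 * εb + 512 * εb / (T' * σ) < β := by
    have : 512 * εb / (T' * σ) = β / 4 := by rw [hεbd]; field_simp; norm_num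
    linarith
  obtain ⟨ηa, hηad⟩ : ∃ ηa, ηa = min (εb / 8) (min δ (T' / 128)) := ⟨_, rfl⟩
  have hηa : 0 < ηa := by rw [hηad]; positivity
  have hηa1 : ηa ≤ εb / 8 := by rw [hηad]; exact min_le_left _ _
  have hηa2 : ηa ≤ δ := by rw [hηad]; exact (min_le_right _ _).trans (min_le_left _ _)
  have hηa3 : ηa ≤ T' / 128 := by rw [hηad]; exact (min_le_right _ _).trans (min_le_right _ _)
  obtain ⟨s', t', hs', -, hst, ha1, ha2⟩ := W.swap.swap.window_pair (fun s => 0 ≤ s)
    (fun L => ⟨max L 0, le_max_left _ _, le_max_right _ _⟩) (κ := 1) one_pos hηa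
  obtain ⟨s, hsd⟩ : ∃ s, s = -s' := ⟨_, rfl⟩
  obtain ⟨t, htd⟩ : ∃ t, t = -t' := ⟨_, rfl⟩
  have hs0 : s ≤ 0 := by rw [hsd]; linarith
  have hA1 : ∀ y, |y| ≤ 1 → ‖W.a (s + y) - W.a (t + y)‖ ≤ ηa := by
    intro y hy
    have h1 := ha1 (-y) (by rwa [abs_neg])
    have e1 : ∀ x, W.swap.swap.a x = W.a (-x) := fun x => by
      show star (star (W.a (-x))) = _
      rw [star_star]
    rw [e1, e1] at h1
    have e2 : -(s' + -y) = s + y := by rw [hsd]; ring
    have e3 : -(t' + -y) = t + y := by rw [htd]; ring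
    rwa [e2, e3] at h1
  have hA2 : ∀ y, |y| ≤ 1 → ‖W.F (s + y) - W.F s - (W.F (t + y) - W.F t)‖ ≤ ηa := by
    intro y hy
    have h1 := ha2 (-y) (by rwa [abs_neg])
    have e1 : ∀ x, W.swap.swap.F x = W.F (-x) := fun x => by
      show -(-W.F (-x)) = _
      rw [neg_neg]
    rw [e1, e1, e1, e1] at h1
    have e2 : -(s' + -y) = s + y := by rw [hsd]; ring
    have e3 : -(t' + -y) = t + y := by rw [htd]; ring
    rwa [e2, e3, ← hsd, ← htd] at h1
  have htight : ‖W.a t - W.a s‖ ≤ ηa := by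
    have := hA1 0 (by rw [abs_zero]; norm_num)
    rwa [add_zero, add_zero, norm_sub_rev] at this
  have hfar2 : Real.sin (d - c) / 4 ≤ |s - t| := by
    have e : s - t = t' - s' := by rw [hsd, htd]; ring
    rw [e, abs_of_nonneg (by linarith), ← hσd]
    linarith
  obtain ⟨o1, o2, o3, o4⟩ := X.ok (s := s) (t := t) (τ := T' / 4) (by positivity) (by linarith)
    (by linarith)
  -- the gap of the two sheets of the second factor
  have hgap : εb < |hgt W c d s u s u (T' / 4) - hgt W c d s u s v (T' / 4)| := by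
    by_contra hcon
    push Not at hcon
    obtain ⟨s1, u1, s2, u2, a1, a2, a3, b1, b2, b3, hd, hor⟩ := hgt_gap o2 o3 hk' hT' rfl hTT
      nu' nv' hεb (by linarith) hcon
    have hbd := hbeta u1 u2 (by linarith) (by linarith)
    rw [← hσd] at a2 b2
    have hs12 : |s1 - s2| ≤ 512 * εb / (T' * σ) := by
      rcases hor with ⟨h1, -⟩ | ⟨-, h2⟩
      · rw [h1, sub_self, abs_zero]; positivity
      · have h3 : |s1 - s2| ≤ Real.sin (d - c) / 8 := by
          rw [← hσd, abs_le]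
          constructor <;> linarith
        have h4 := (short_a D h3).trans h2
        rw [← hσd] at h4
        rw [le_div_iff₀ (by positivity)]
        have h6 : 64 * εb / (T' / 4) = 256 * εb / T' := by field_simp; ring
        rw [h6, le_div_iff₀ hT'] at h4
        nlinarith
    have h5 := W.lip_a s1 s2
    have e1 : ‖W.b u1 - W.b u2‖ = ‖W.a s1 * (W.b u1 - W.b u2)‖ := by
      rw [norm_mul, W.ua, one_mul]
    have e2 : W.a s1 * (W.b u1 - W.b u2) = (W.a s1 * W.b u1 - W.a s2 * W.b u2) -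
        (W.a s1 - W.a s2) * W.b u2 := by noncomm_ring
    have h6 : ‖W.b u1 - W.b u2‖ ≤ 2 * εb + 512 * εb / (T' * σ) := by
      rw [e1, e2]
      refine (norm_sub_le _ _).trans ?_
      rw [norm_mul, W.ub, mul_one]
      linarith
    linarith
  have c1 := hgt_close_a o3 o1 (η := ηa) (by linarith) (fun y h0 h1 => hA1 y (by
    rw [abs_of_nonneg h0]; exact h1)) (fun y h0 h1 => hA2 y (by rw [abs_of_nonneg h0]; exact h1))
  have c2 := hgt_close_a o2 o4 (η := ηa) (by linarith) (fun y h0 h1 => hA1 y (by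
    rw [abs_of_nonneg h0]; exact h1)) (fun y h0 h1 => hA2 y (by rw [abs_of_nonneg h0]; exact h1))
  refine X.no_state hs0 ⟨htight.trans hηa2, hfar2, ?_⟩
  rw [Four.D1, Four.D2]
  set huu := hgt W c d s u s u (T' / 4)
  set htu := hgt W c d s u t u (T' / 4)
  set hsv := hgt W c d s u s v (T' / 4)
  set htv := hgt W c d s u t v (T' / 4)
  rw [abs_le] at c1 c2
  rcases lt_abs.1 hgap with h | h
  · exact mul_pos_of_neg_of_neg (by linarith [c1.2]) (by linarith [c2.1])
  · exact mul_pos (by linarith [c1.1]) (by linarith [c2.2])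

end Pool.Agent.Helper885.Emb
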