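import Pool.Agent.Helper885.Emb.Lin

set_option autoImplicit false
set_option linter.unusedSectionVars false

namespace Pool.Agent.Helper885.Emb

open Quaternion Topology Set Metric Filter
open scoped ContDiff
open Pool.Agent.Helper253 Pool.Agent.Helper253.Net Pool.Agent.Helper253.Emb

/-- The surface near the point `(t, v)` seen from the frame at `(s, u)`. -/
noncomputable def E (W : Web) (s u t v : ℝ) (ζ : ℂ) : ℍ[ℝ] :=
  star (W.a s) * W.f (W.F t + W.G v + ζ) * star (W.b u)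

theorem E_val {W : Web} {s u t v t' v' : ℝ} {ζ : ℂ} (h : W.F t' + W.G v' = W.F t + W.G v + ζ) :
    E W s u t v ζ = (star (W.a s) * W.a t') * (W.b v' * star (W.b u)) := by
  rw [E, ← h, W.hf]; simp only [mul_assoc]

theorem norm_E {W : Web} {s u t v t' v' : ℝ} {ζ : ℂ} (h : W.F t' + W.G v' = W.F t + W.G v + ζ) :
    ‖E W s u t v ζ‖ = 1 := by
  rw [E_val h, norm_mul, norm_mul, norm_mul, Quaternion.norm_star, Quaternion.norm_star, W.ua,
    W.ua, W.ub, W.ub]
  norm_num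

theorem E_deriv {W : Web} {s u t v t' v' : ℝ} {ζ : ℂ}
    (h : W.F t' + W.G v' = W.F t + W.G v + ζ) :
    HasFDerivAt (E W s u t v) (lr (star (W.a s) * W.a t') (W.b v' * star (W.b u))) ζ := by
  have h5 := W.df t' v'
  rw [h] at h5
  have h6 : HasFDerivAt (fun z : ℂ => W.F t + W.G v + z) (ContinuousLinearMap.id ℝ ℂ) ζ :=
    (hasFDerivAt_id ζ).const_add _
  have h7 := HasFDerivAt.comp ζ (g := W.f) h5 h6
  let M : ℍ[ℝ] →L[ℝ] ℍ[ℝ] := (ContinuousLinearMap.mul ℝ ℍ[ℝ] (star (W.a s))).comp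
    ((ContinuousLinearMap.mul ℝ ℍ[ℝ]).flip (star (W.b u)))
  have h8 := (M.hasFDerivAt).comp ζ h7
  have e1 : (M ∘ (W.f ∘ fun z : ℂ => W.F t + W.G v + z)) = E W s u t v := by
    funext z
    show star (W.a s) * (W.f (W.F t + W.G v + z) * star (W.b u)) = _
    rw [E, mul_assoc]
  rw [e1] at h8
  refine h8.congr_fderiv ?_
  ext1 ξ
  show star (W.a s) * (W.a _ * hat ξ * W.b _ * star (W.b u)) = star (W.a s) * W.a _ * hat ξ *
    (W.b _ * star (W.b u))
  simp only [mul_assoc]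

theorem lr_sub_hat {A B : ℍ[ℝ]} (hB : ‖B‖ = 1) : ‖lr A B - hat‖ ≤ ‖A - 1‖ + ‖B - 1‖ := by
  refine ContinuousLinearMap.opNorm_le_bound _ (by positivity) fun x => ?_
  show ‖A * hat x * B - hat x‖ ≤ _
  have := mul_close (A := A) hB (hat x)
  rwa [norm_hat] at this

theorem E_cont (W : Web) : Continuous (fun p : ℝ × ℝ × ℝ × ℝ × ℂ =>
    E W p.1 p.2.1 p.2.2.1 p.2.2.2.1 p.2.2.2.2) := by
  have h1 := W.cont_a
  have h2 := W.cont_b
  have h3 := W.cont_F
  have h4 := W.cont_G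
  have h5 : Continuous W.f := W.sf.continuous
  unfold E
  fun_prop

variable {W : Web} {c d : ℝ}

/-- The chart constants. -/
theorem E_lin (D : Dir W c d) {k T v : ℝ} (hk : 0 < k) (hT : 0 < T) (hN : NE W c d k T v)
    (s u t : ℝ) {ε : ℝ}
    (hε : (2 * T + k) / Real.sin (d - c) + k + ‖W.a t - W.a s‖ + ‖W.b v - W.b u‖ ≤ ε) :
    Lin (E W s u t v) (Reg c d T) ε := by
  have key : ∀ ζ ∈ Reg c d T, ∃ L : ℂ →L[ℝ] ℍ[ℝ], HasFDerivAt (E W s u t v) L ζ ∧ ‖L - hat‖ ≤ ε := by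
    intro ζ hζ
    obtain ⟨t', v', h⟩ := chart D hk hT hN t hζ
    obtain ⟨l1, l2, l3, -⟩ := loc D hN hζ h
    refine ⟨_, E_deriv h, (lr_sub_hat ?_).trans ?_⟩
    · rw [norm_mul, Quaternion.norm_star, W.ub, W.ub, one_mul]
    · rw [W.norm_a_star, W.norm_b_star]
      have h1 := norm_sub_le_norm_sub_add_norm_sub (W.a t') (W.a t) (W.a s)
      have h2 := norm_sub_le_norm_sub_add_norm_sub (W.b v') (W.b v) (W.b u)
      have h3 := W.lip_a t' t
      have h4 := W.lip_b v' v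
      rw [abs_of_nonneg (by linarith)] at h3
      linarith
  choose! L hL1 hL2 using key
  intro x hx y hy
  have h := (Reg_convex c d T).norm_image_sub_le_of_norm_hasFDerivWithin_le
    (f := fun q => E W s u t v q - hat q) (f' := fun q => L q - hat)
    (C := ε) (fun x hx => ((hL1 x hx).sub hat.hasFDerivAt).hasFDerivWithinAt)
    (fun x hx => hL2 x hx) hy hx
  have e : E W s u t v x - hat x - (E W s u t v y - hat y) =
      E W s u t v x - E W s u t v y - hat (x - y) := by rw [map_sub]; abel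
  rw [← e]
  exact h

theorem smul_e0_coord (D : Dir W c d) (τ : ℝ) :
    cr (τ • e0 c d) (ei d) = τ ∧ cr (ei c) (τ • e0 c d) = τ := by
  constructor
  · have : cr (τ • e0 c d) (ei d) = τ * cr (e0 c d) (ei d) := by simp [cr]; ring
    rw [this, cr_e0_left D, mul_one]
  · have : cr (ei c) (τ • e0 c d) = τ * cr (ei c) (e0 c d) := by simp [cr]; ring
    rw [this, cr_e0_right D, mul_one]

/-- Coordinates near the diagonal point. -/
theorem near_coord (D : Dir W c d) {τ r : ℝ} {ζ : ℂ} (h : ‖ζ - τ • e0 c d‖ ≤ r) :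
    τ - r ≤ cr ζ (ei d) ∧ cr ζ (ei d) ≤ τ + r ∧ τ - r ≤ cr (ei c) ζ ∧ cr (ei c) ζ ≤ τ + r := by
  obtain ⟨h1, h2⟩ := smul_e0_coord D τ
  have a1 := cr_le (ζ - τ • e0 c d) (ei d)
  have a2 := cr_le (ei c) (ζ - τ • e0 c d)
  rw [norm_ei, mul_one] at a1
  rw [norm_ei, one_mul] at a2
  have e1 : cr (ζ - τ • e0 c d) (ei d) = cr ζ (ei d) - τ := by
    rw [cr_sub_left, h1]
  have e2 : cr (ei c) (ζ - τ • e0 c d) = cr (ei c) ζ - τ := by
    rw [cr_sub_right, h2]
  rw [e1] at a1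
  rw [e2] at a2
  have b1 := abs_le.1 (a1.trans h)
  have b2 := abs_le.1 (a2.trans h)
  refine ⟨by linarith [b1.1], by linarith [b1.2], by linarith [b2.1], by linarith [b2.2]⟩

theorem near_Reg (D : Dir W c d) {τ r T : ℝ} {ζ : ℂ} (h : ‖ζ - τ • e0 c d‖ ≤ r) (h1 : r < τ)
    (h2 : τ + r < T) : ζ ∈ Reg c d T := by
  obtain ⟨a1, a2, a3, a4⟩ := near_coord D h
  exact ⟨by linarith, by linarith, by linarith, by linarith⟩

theorem closure_ineq {g : ℂ × ℂ → ℝ} (hg : Continuous g) {Y : Set ℂ}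
    (h : ∀ x ∈ Y, ∀ y ∈ Y, g (x, y) ≤ 0) : ∀ x ∈ closure Y, ∀ y ∈ closure Y, g (x, y) ≤ 0 := by
  have hcl : IsClosed {p : ℂ × ℂ | g p ≤ 0} := isClosed_le hg continuous_const
  have hsub : Y ×ˢ Y ⊆ {p : ℂ × ℂ | g p ≤ 0} := fun p hp => h p.1 hp.1 p.2 hp.2
  have h4 := closure_minimal hsub hcl
  rw [closure_prod_eq] at h4
  exact fun x hx y hy => h4 (show (x, y) ∈ closure Y ×ˢ closure Y from ⟨hx, hy⟩)

theorem Lin.clos {X : ℂ → ℍ[ℝ]} {Y : Set ℂ} {ε : ℝ} (h : Lin X Y ε) (hX : Continuous X) :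
    Lin X (closure Y) ε := by
  have h1 : Continuous (fun p : ℂ × ℂ => X p.1) := hX.comp continuous_fst
  have h2 : Continuous (fun p : ℂ × ℂ => X p.2) := hX.comp continuous_snd
  have h3 : Continuous (fun p : ℂ × ℂ => hat (p.1 - p.2)) :=
    hat.continuous.comp (continuous_fst.sub continuous_snd)
  have h4 : Continuous (fun p : ℂ × ℂ => ‖X p.1 - X p.2 - hat (p.1 - p.2)‖ - ε * ‖p.1 - p.2‖) :=
    ((h1.sub h2).sub h3).norm.sub
      (continuous_const.mul (continuous_fst.sub continuous_snd).norm)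
  intro x hx y hy
  have := closure_ineq h4 (Y := Y) (fun x hx y hy => by
    have := h x hx y hy
    show ‖X x - X y - hat (x - y)‖ - ε * ‖x - y‖ ≤ 0
    linarith) x hx y hy
  have h5 : ‖X x - X y - hat (x - y)‖ - ε * ‖x - y‖ ≤ 0 := this
  linarith

theorem E_cont_z (s u t v : ℝ) : Continuous (E W s u t v) := by
  have h5 : Continuous W.f := W.sf.continuous
  unfold E
  fun_prop

theorem zero_mem_closure (D : Dir W c d) {T : ℝ} (hT : 0 < T) : (0 : ℂ) ∈ closure (Reg c d T) := by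
  have hl : Tendsto (fun τ : ℝ => τ • e0 c d) (𝓝[>] 0) (𝓝 0) := by
    have h1 : Continuous (fun τ : ℝ => τ • e0 c d) := by fun_prop
    have h2 := (h1.tendsto 0).mono_left (nhdsWithin_le_nhds (s := Ioi 0))
    rwa [zero_smul] at h2
  refine mem_closure_of_tendsto hl ?_
  filter_upwards [Ioo_mem_nhdsGT hT] with τ hτ
  obtain ⟨h1, h2⟩ := smul_e0_coord D τ
  exact ⟨by rw [h1]; exact hτ.1, by rw [h1]; exact hτ.2, by rw [h2]; exact hτ.1,
    by rw [h2]; exact hτ.2⟩

/-- The value at a point of the region, relative to the base. -/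
theorem E_base (D : Dir W c d) {T : ℝ} (hT : 0 < T) {s u t v ε : ℝ}
    (L : Lin (E W s u t v) (Reg c d T) ε) {ζ : ℂ} (hζ : ζ ∈ Reg c d T) :
    ‖E W s u t v ζ - E W s u t v 0 - hat ζ‖ ≤ ε * ‖ζ‖ := by
  have h := L.clos (E_cont_z s u t v) ζ (subset_closure hζ) 0 (zero_mem_closure D hT)
  rwa [sub_zero] at h

theorem E_zero (s u t v : ℝ) : ‖E W s u t v 0 - 1‖ ≤ ‖W.a t - W.a s‖ + ‖W.b v - W.b u‖ := by
  have h : W.F t + W.G v = W.F t + W.G v + 0 := (add_zero _).symm
  rw [E_val h]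
  have h1 := mul_close (A := star (W.a s) * W.a t) (B := W.b v * star (W.b u))
    (by rw [norm_mul, Quaternion.norm_star, W.ub, W.ub, one_mul]) 1
  rw [mul_one, norm_one, mul_one, W.norm_a_star, W.norm_b_star] at h1
  exact h1

/-- Generic short arc estimate. -/
theorem short_arc {h : ℍ[ℝ]} {w : ℂ} {x sg : ℝ} (hx : 0 ≤ x) (hsg : sg ≤ 1) (hxs : x ≤ sg / 8)
    (h1 : ‖h - 1 - hat w‖ ≤ x ^ 2) (h2 : ‖w‖ ≤ x) (h3 : sg * x / 2 ≤ ‖w‖) :
    sg * x / 2 ≤ ‖zL (h * kq * star h)‖ ∧ sg * x / 2 ≤ ‖zL (star h * kq * h)‖ := by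
  set e : ℍ[ℝ] := h - 1 - hat w with he
  have eh : h = 1 + hat w + e := by rw [he]; abel
  have esh : star h = 1 - hat w + star e := by rw [eh, star_add, star_add, star_one, star_hat]; abel
  have ne : ‖star e‖ = ‖e‖ := Quaternion.norm_star e
  have hx1 : x ≤ 1 / 8 := by linarith
  have zk : zL kq = 0 := Complex.ext (by rw [zL_re]; rfl) (by rw [zL_im]; rfl)
  have main : ∀ (w' : ℂ) (p q : ℍ[ℝ]), ‖w'‖ = ‖w‖ → ‖p‖ ≤ x ^ 2 → ‖q‖ ≤ x ^ 2 →
      sg * x / 2 ≤ ‖zL ((1 + hat w' + p) * kq * (1 - hat w' + q))‖ := by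
    intro w' p q hw' hp hq
    have e1 : (1 + hat w' + p) * kq * (1 - hat w' + q) = kq + (-(kq * hat w' - hat w' * kq)) +
        (kq * q - hat w' * kq * hat w' + hat w' * kq * q + p * kq - p * kq * hat w' +
          p * kq * q) := by noncomm_ring
    have e2 : zL (kq * hat w' - hat w' * kq) = (2 : ℝ) • (Complex.I * w') := by
      rw [comm_z]
      have : kL kq = 1 := by rw [kL_apply]; rfl
      rw [this, mul_one]
    rw [e1, map_add, map_add, map_neg, zk, zero_add, e2]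
    set r : ℍ[ℝ] := kq * q - hat w' * kq * hat w' + hat w' * kq * q + p * kq - p * kq * hat w' +
          p * kq * q with hr
    have nr : ‖r‖ ≤ 4 * x ^ 2 := by
      have n0 := norm_kq
      have n1 : ‖kq * q‖ ≤ x ^ 2 := by rw [norm_mul, n0, one_mul]; exact hq
      have n2 : ‖hat w' * kq * hat w'‖ ≤ x ^ 2 := by
        rw [norm_mul, norm_mul, n0, norm_hat, hw', mul_one]
        nlinarith [norm_nonneg w]
      have n3 : ‖hat w' * kq * q‖ ≤ x * x ^ 2 := by
        rw [norm_mul, norm_mul, n0, norm_hat, hw', mul_one]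
        exact mul_le_mul h2 hq (norm_nonneg _) hx
      have n4 : ‖p * kq‖ ≤ x ^ 2 := by rw [norm_mul, n0, mul_one]; exact hp
      have n5 : ‖p * kq * hat w'‖ ≤ x ^ 2 * x := by
        rw [norm_mul, norm_mul, n0, norm_hat, hw', mul_one]
        exact mul_le_mul hp h2 (norm_nonneg _) (by positivity)
      have n6 : ‖p * kq * q‖ ≤ x ^ 2 * x ^ 2 := by
        rw [norm_mul, norm_mul, n0, mul_one]
        exact mul_le_mul hp hq (norm_nonneg _) (by positivity)
      have t : ‖r‖ ≤ ‖kq * q‖ + ‖hat w' * kq * hat w'‖ + ‖hat w' * kq * q‖ + ‖p * kq‖ +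
          ‖p * kq * hat w'‖ + ‖p * kq * q‖ := by
        rw [hr]
        have t1 := norm_add_le (kq * q - hat w' * kq * hat w' + hat w' * kq * q + p * kq -
          p * kq * hat w') (p * kq * q)
        have t2 := norm_sub_le (kq * q - hat w' * kq * hat w' + hat w' * kq * q + p * kq)
          (p * kq * hat w')
        have t3 := norm_add_le (kq * q - hat w' * kq * hat w' + hat w' * kq * q) (p * kq)
        have t4 := norm_add_le (kq * q - hat w' * kq * hat w') (hat w' * kq * q)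
        have t5 := norm_sub_le (kq * q) (hat w' * kq * hat w')
        linarith
      nlinarith [sq_nonneg x]
    have n7 : ‖zL r‖ ≤ 4 * x ^ 2 := (norm_zL_le r).trans nr
    have n8 : ‖(2 : ℝ) • (Complex.I * w')‖ = 2 * ‖w‖ := by
      rw [norm_smul, norm_mul, Complex.norm_I, one_mul, hw']; norm_num
    have n9 : ‖-((2 : ℝ) • (Complex.I * w'))‖ ≤ ‖-((2 : ℝ) • (Complex.I * w')) + zL r‖ + ‖zL r‖ := by
      have := norm_sub_le (-((2 : ℝ) • (Complex.I * w')) + zL r) (zL r)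
      rwa [add_sub_cancel_right] at this
    rw [norm_neg, n8] at n9
    nlinarith
  constructor
  · have := main w e (star e) rfl h1 (by rw [ne]; exact h1)
    rwa [← eh, ← esh] at this
  · have := main (-w) (star e) e (norm_neg w) (by rw [ne]; exact h1) h1
    have e3 : star h = 1 + hat (-w) + star e := by rw [esh, map_neg]; abel
    have e4 : h = 1 - hat (-w) + e := by rw [map_neg, sub_neg_eq_add]; exact eh
    rwa [← e3, ← e4] at this

/-- First order expansion of an arc. -/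
theorem arc_first {g : ℝ → ℍ[ℝ]} {H : ℝ → ℂ} {g' : ℝ → ℍ[ℝ]} {H' : ℝ → ℂ} {r : ℝ}
    (dg : ∀ x, HasDerivAt g (g' x) x) (dH : ∀ x, HasDerivAt H (H' x) x) (hg : g r = 1)
    (hb : ∀ x, ‖g' x - hat (H' x)‖ ≤ |x - r|) (x : ℝ) :
    ‖g x - 1 - hat (H x - H r)‖ ≤ |x - r| ^ 2 := by
  have hd : ∀ y, HasDerivAt (fun y => g y - hat (H y)) (g' y - hat (H' y)) y := fun y =>
    (dg y).sub (hat.hasFDerivAt.comp_hasDerivAt y (dH y))
  have h := (convex_uIcc r x).norm_image_sub_le_of_norm_hasDerivWithin_le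
    (f := fun y => g y - hat (H y)) (f' := fun y => g' y - hat (H' y)) (C := |x - r|)
    (fun y _ => (hd y).hasDerivWithinAt) (fun y hy => (hb y).trans ?_) left_mem_uIcc
    right_mem_uIcc
  · have e : g x - hat (H x) - (g r - hat (H r)) = g x - 1 - hat (H x - H r) := by
      rw [hg, map_sub]; abel
    rw [e] at h
    rw [Real.norm_eq_abs] at h
    rw [sq]
    exact h
  · exact abs_sub_left_of_mem_uIcc hy

theorem arc_b (v w : ℝ) : ‖W.b v * star (W.b w) - 1 - hat (W.G v - W.G w)‖ ≤ |v - w| ^ 2 := by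
  refine arc_first (g := fun v => W.b v * star (W.b w)) (H := W.G)
    (g' := fun v => hat (ei (W.θ2 v)) * W.b v * star (W.b w)) (H' := fun v => ei (W.θ2 v))
    (fun x => (W.db x).mul_const _) W.dG (self_mul_star1 (W.ub w)) (fun x => ?_) v
  have e : hat (ei (W.θ2 x)) * W.b x * star (W.b w) - hat (ei (W.θ2 x)) =
      hat (ei (W.θ2 x)) * (W.b x * star (W.b w) - 1) := by rw [mul_sub, mul_one, mul_assoc]
  rw [e, norm_mul, norm_hat, norm_ei, one_mul, W.norm_b_star]
  exact W.lip_b x w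

theorem arc_a (s t : ℝ) : ‖star (W.a t) * W.a s - 1 - hat (W.F s - W.F t)‖ ≤ |s - t| ^ 2 := by
  refine arc_first (g := fun s => star (W.a t) * W.a s) (H := W.F)
    (g' := fun s => star (W.a t) * (W.a s * hat (ei (W.θ1 s)))) (H' := fun s => ei (W.θ1 s))
    (fun x => (W.da x).const_mul _) W.dF (star_mul_self1 (W.ua t)) (fun x => ?_) s
  have e : star (W.a t) * (W.a x * hat (ei (W.θ1 x))) - hat (ei (W.θ1 x)) =
      (star (W.a t) * W.a x - 1) * hat (ei (W.θ1 x)) := by rw [sub_mul, one_mul, mul_assoc]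
  rw [e, norm_mul, norm_hat, norm_ei, mul_one, W.norm_a_star]
  exact W.lip_a x t

theorem normG_ge (D : Dir W c d) (v w : ℝ) :
    Real.sin (d - c) * |v - w| / 2 ≤ ‖W.G v - W.G w‖ := by
  have key : ∀ v w : ℝ, w ≤ v → Real.sin (d - c) * |v - w| / 2 ≤ ‖W.G v - W.G w‖ := by
    intro v w h
    have h1 := D.sumG h
    have h2 := (le_abs_self _).trans (cr_le (W.G v - W.G w) (ei d))
    have h3 := (neg_le_abs _).trans (cr_le (ei c) (W.G v - W.G w))
    rw [norm_ei, mul_one] at h2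
    rw [norm_ei, one_mul] at h3
    rw [abs_of_nonneg (by linarith)]
    linarith
  rcases le_total w v with h | h
  · exact key v w h
  · rw [abs_sub_comm, norm_sub_rev]; exact key w v h

theorem normF_ge (D : Dir W c d) (v w : ℝ) :
    Real.sin (d - c) * |v - w| / 2 ≤ ‖W.F v - W.F w‖ := by
  have key : ∀ v w : ℝ, w ≤ v → Real.sin (d - c) * |v - w| / 2 ≤ ‖W.F v - W.F w‖ := by
    intro v w h
    have h1 := D.sumF h
    have h2 := (le_abs_self _).trans (cr_le (W.F v - W.F w) (ei d))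
    have h3 := (le_abs_self _).trans (cr_le (ei c) (W.F v - W.F w))
    rw [norm_ei, mul_one] at h2
    rw [norm_ei, one_mul] at h3
    rw [abs_of_nonneg (by linarith)]
    linarith
  rcases le_total w v with h | h
  · exact key v w h
  · rw [abs_sub_comm, norm_sub_rev]; exact key w v h

theorem short_b (D : Dir W c d) {v w : ℝ} (h : |v - w| ≤ Real.sin (d - c) / 8) :
    Real.sin (d - c) * |v - w| / 2 ≤
      ‖zL ((W.b v * star (W.b w)) * kq * star (W.b v * star (W.b w)))‖ :=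
  (short_arc (abs_nonneg _) (Real.sin_le_one _) h (arc_b v w)
    (W.lip_G v w) (normG_ge D v w)).1

theorem short_a (D : Dir W c d) {s t : ℝ} (h : |s - t| ≤ Real.sin (d - c) / 8) :
    Real.sin (d - c) * |s - t| / 2 ≤
      ‖zL (star (star (W.a t) * W.a s) * kq * (star (W.a t) * W.a s))‖ :=
  (short_arc (abs_nonneg _) (Real.sin_le_one _) h (arc_a s t)
    (W.lip_F s t) (normF_ge D s t)).2

/-- Chords of the first factor. -/
theorem chord_a (D : Dir W c d) {s t : ℝ} (h : |s - t| ≤ Real.sin (d - c) / 4) :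
    Real.sin (d - c) * |s - t| / 4 ≤ ‖W.a s - W.a t‖ := by
  have h1 := arc_a (W := W) s t
  have h2 := normF_ge D s t
  have h3 : ‖hat (W.F s - W.F t)‖ ≤ ‖star (W.a t) * W.a s - 1‖ +
      ‖star (W.a t) * W.a s - 1 - hat (W.F s - W.F t)‖ := by
    have := norm_sub_le (star (W.a t) * W.a s - 1)
      (star (W.a t) * W.a s - 1 - hat (W.F s - W.F t))
    rwa [sub_sub_cancel] at this
  rw [norm_hat, W.norm_a_star] at h3
  nlinarith [abs_nonneg (s - t)]

end Pool.Agent.Helper885.Emb
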